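import Pool.Agent.Lib.Pad47bbM.Rel

/-!
The Siegel property, and the relative cone statement from a rational polyhedral fundamental domain.
-/

open Set Topology

namespace Pool.Agent.Lib.Pad47bbM

open Pool.Agent.Lib.Pad47bb Pool.Agent.Lib.Pad47bbQ Pool.Agent.Lib.Pad47bbC

variable {V : Type*} [NormedAddCommGroup V] [NormedSpace ℝ V] [FiniteDimensional ℝ V]
  {L : Submodule ℤ V} [DiscreteTopology L] [IsZLattice ℝ L]

/-- The Siegel property for two rational polyhedral cones in `K`. -/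
theorem siegel {K : PointedCone ℝ V} {Γ : Subgroup (V ≃ₗ[ℝ] V)} (S : Setting L K Γ)
    (f : V →L[ℝ] ℝ) (hf : ∀ x ∈ closure (K : Set V), x ≠ 0 → 0 < f x)
    (s : Finset V) (hsL : (s : Set V) ⊆ L) (hsK : (s : Set V) ⊆ K)
    (u : Finset V) (huL : (u : Set V) ⊆ L) (huK : (u : Set V) ⊆ K) :
    {g : V ≃ₗ[ℝ] V | g ∈ Γ ∧ ∃ z ∈ PointedCone.hull ℝ (s : Set V),
      g z ∈ PointedCone.hull ℝ (u : Set V) ∧ g z ∈ interior (K : Set V)}.Finite := by
  classical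
  obtain ⟨Φ, hΦΓ, hΦne, hΦ⟩ := dicksonR (L := L) K u (Γ : Set (V ≃ₗ[ℝ] V)) ⟨1, one_mem Γ⟩ f hf (by
    intro g hg a ha
    exact ⟨S.map_lattice g hg a (huL ha), S.map_cone g hg a (huK ha)⟩)
  have hfin := finite_minimizersR S s hsL hsK f hf
  refine ((Φ.finite_toSet).biUnion (t := fun φ => (fun γ : V ≃ₗ[ℝ] V => φ⁻¹ * γ) ''
    {γ : V ≃ₗ[ℝ] V | γ ∈ Γ ∧ ∃ z ∈ PointedCone.hull ℝ (s : Set V), z ∈ interior (K : Set V) ∧
      IsMinimal Γ f (γ z)}) fun φ _ => hfin.image _).subset ?_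
  rintro g ⟨hg, z, hz, hgu, hgint⟩
  obtain ⟨φ, hφ, hφmin⟩ := Φ.exists_min_image (fun ψ => f (ψ (g z))) hΦne
  have hmin : IsMinimal Γ f (φ (g z)) := by
    intro h hh
    obtain ⟨ψ, hψ, hψx⟩ := hΦ (h * φ) (mul_mem hh (hΦΓ hφ))
    exact (hφmin ψ hψ).trans (hψx _ hgu)
  refine mem_biUnion (x := φ) hφ ⟨φ * g, ⟨mul_mem (hΦΓ hφ) hg, z, hz, ?_, hmin⟩, ?_⟩
  · have h1 := interior_map_mem (S.map_cone _ (inv_mem hg)) hgint
    have h2 : g⁻¹ (g z) = z := g.symm_apply_apply z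
    rwa [h2] at h1
  · show φ⁻¹ * (φ * g) = g
    group

/-- an interior point is a nonnegative combination of lattice points of the interior -/
theorem exists_hull_interior {K : PointedCone ℝ V} {x : V} (hx : x ∈ interior (K : Set V)) :
    ∃ u : Finset V, (∀ p ∈ u, p ∈ L ∧ p ∈ interior (K : Set V)) ∧
      x ∈ PointedCone.hull ℝ (u : Set V) := by
  obtain ⟨s, hs1, hs2, hs3⟩ := exists_ratPoly_nhds L isOpen_interior hx
  refine ⟨s, fun v hv => ⟨hs1 hv, ?_⟩, interior_subset hs3⟩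
  obtain ⟨c, hc, hcv⟩ := hs2 v hv
  have := interior_smul' hcv (inv_pos.2 hc)
  rwa [smul_smul, inv_mul_cancel₀ hc.ne', one_smul] at this

omit [FiniteDimensional ℝ V] in
theorem tendsto_add_smul (x e : V) :
    Filter.Tendsto (fun n : ℕ => x + (1 / ((n : ℝ) + 1)) • e) Filter.atTop (𝓝 x) := by
  have h2 : Filter.Tendsto (fun n : ℕ => (1 / ((n : ℝ) + 1))) Filter.atTop (𝓝 0) :=
    tendsto_one_div_add_atTop_nhds_zero_nat
  have h3 := (tendsto_const_nhds (x := x)).add (h2.smul_const e)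
  simpa using h3

/-- The germ of the segment from a rational polyhedral combination `σ` towards an interior point is
contained in one translate. -/
theorem exists_germ {N : PointedCone ℝ V} {Γ : Subgroup (V ≃ₗ[ℝ] V)}
    (S : Setting L N Γ) (f : V →L[ℝ] ℝ) (hf : ∀ x ∈ closure (N : Set V), x ≠ 0 → 0 < f x)
    (s : Finset V) (hsL : (s : Set V) ⊆ L) (hsN : (s : Set V) ⊆ N)
    (hcov : ∀ x ∈ interior (N : Set V), ∃ g ∈ Γ, ∃ y ∈ PointedCone.hull ℝ (s : Set V), g y = x)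
    (J : Finset V) (hJL : (J : Set V) ⊆ L) (hJN : (J : Set V) ⊆ N) {σ x : V}
    (hσ : σ ∈ PointedCone.hull ℝ (J : Set V)) (hx : x ∈ interior (N : Set V)) :
    ∃ g ∈ Γ, (∃ y ∈ PointedCone.hull ℝ (s : Set V), g y = σ) ∧ ∃ δ : ℝ, 0 < δ ∧
      ∃ y ∈ PointedCone.hull ℝ (s : Set V), g y = σ + δ • x := by
  classical
  obtain ⟨u, hu, hxu⟩ := exists_hull_interior (L := L) hx
  have hσN : σ ∈ N := by
    have h1 : PointedCone.hull ℝ (J : Set V) ≤ N := Submodule.span_le.2 hJN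
    exact h1 hσ
  have hfin := siegel S f hf s hsL hsN (J ∪ u)
    (by rw [Finset.coe_union]; exact union_subset hJL fun p hp => (hu p hp).1)
    (by rw [Finset.coe_union]; exact union_subset hJN fun p hp => interior_subset (hu p hp).2)
  have hDint : ∀ n : ℕ, σ + (1 / ((n : ℝ) + 1)) • x ∈ interior (N : Set V) := by
    intro n
    rw [add_comm]
    exact interior_add_mem (interior_smul_mem hx (by positivity)) hσN
  choose g hg y hy hgy using fun n : ℕ => hcov _ (hDint n)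
  have hgfin : ∀ n, g n ∈ hfin.toFinset := by
    intro n
    refine hfin.mem_toFinset.2 ⟨hg n, y n, hy n, ?_, ?_⟩
    · rw [hgy n]
      refine Submodule.add_mem _ (hull_mono_finset Finset.subset_union_left hσ) ?_
      exact PointedCone.smul_mem _ (by positivity) (hull_mono_finset Finset.subset_union_right hxu)
    · rw [hgy n]
      exact hDint n
  obtain ⟨φ, hφinf⟩ : ∃ φ : V ≃ₗ[ℝ] V, {n : ℕ | g n = φ}.Infinite := by
    by_contra h
    push Not at h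
    have h1 : (⋃ φ ∈ (hfin.toFinset : Set (V ≃ₗ[ℝ] V)), {n : ℕ | g n = φ}).Finite :=
      hfin.toFinset.finite_toSet.biUnion fun φ _ => h φ
    refine Set.infinite_univ (α := ℕ) (h1.subset ?_)
    intro n _
    exact mem_biUnion (x := g n) (hgfin n) rfl
  obtain ⟨n₀, hn₀⟩ := hφinf.nonempty
  have hn₀' : g n₀ = φ := hn₀
  refine ⟨φ, hn₀' ▸ hg n₀, ?_, 1 / ((n₀ : ℝ) + 1), by positivity, y n₀, hy n₀, ?_⟩
  · have hcl : IsClosed ((φ : V → V) '' (PointedCone.hull ℝ (s : Set V) : Set V)) :=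
      φ.toContinuousLinearEquiv.toHomeomorph.isClosedMap _ (isClosed_hull f hf s hsN)
    have hmem : σ ∈ (φ : V → V) '' (PointedCone.hull ℝ (s : Set V) : Set V) := by
      rw [← hcl.closure_eq, mem_closure_iff_frequently]
      refine (tendsto_add_smul σ x).frequently
        (p := fun y => y ∈ (φ : V → V) '' (PointedCone.hull ℝ (s : Set V) : Set V)) ?_
      rw [Filter.frequently_atTop]
      intro M
      obtain ⟨n, hn, hMn⟩ := hφinf.exists_gt M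
      have hn' : g n = φ := hn
      exact ⟨n, hMn.le, y n, hy n, by rw [← hn', hgy n]⟩
    exact hmem
  · rw [← hn₀', hgy n₀]

/-- If the translates of `P = cone s` cover the interior of `N`, the relative cone statement holds
for all `J`. -/
theorem relCone_of_cover {N E : PointedCone ℝ V} {Γ : Subgroup (V ≃ₗ[ℝ] V)}
    (S : Setting L N Γ) (hΓE : ∀ g ∈ Γ, ∀ x ∈ E, g x ∈ E) (f : V →L[ℝ] ℝ)
    (hf : ∀ x ∈ closure (N : Set V), x ≠ 0 → 0 < f x)
    (s : Finset V) (hs : ∀ p ∈ s, p ∈ L ∧ p ∈ N ∧ p ∈ E)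
    (hcov : ∀ x ∈ interior (N : Set V), ∃ g ∈ Γ, ∃ y ∈ PointedCone.hull ℝ (s : Set V), g y = x)
    (J : Finset V) (hJN : ∀ p ∈ J, p ∈ L ∧ p ∈ N ∧ p ∈ E) : RelCone L N E Γ J := by
  classical
  set σ : V := ∑ p ∈ J, p with hσ
  have hσJ : σ ∈ PointedCone.hull ℝ (J : Set V) := Submodule.sum_mem _ fun p hp =>
    Submodule.subset_span hp
  have hσN : σ ∈ N := N.sum_mem fun p hp => (hJN p hp).2.1
  have hσL : σ ∈ L := L.sum_mem fun p hp => (hJN p hp).1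
  -- finiteness of the points of `P` in the orbit of `σ`
  obtain ⟨Φ, hΦΓ, hΦne, hΦ⟩ := dicksonR (L := L) N s (Γ : Set (V ≃ₗ[ℝ] V)) ⟨1, one_mem Γ⟩ f hf (by
    intro g hg a ha
    exact ⟨S.map_lattice g hg a (hs a ha).1, S.map_cone g hg a (hs a ha).2.1⟩)
  have hB : ∀ C : ℝ, {x : V | x ∈ L ∧ x ∈ N ∧ f x ≤ C}.Finite := finite_points (L := L) f hf
  have hQ : {q : V | q ∈ PointedCone.hull ℝ (s : Set V) ∧ ∃ g ∈ Γ, g q = σ}.Finite := by
    refine ((Φ.finite_toSet).biUnion (t := fun φ : V ≃ₗ[ℝ] V => (φ⁻¹ : V ≃ₗ[ℝ] V) ''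
      {x : V | x ∈ L ∧ x ∈ N ∧ f x ≤ f σ}) fun φ _ => (hB (f σ)).image _).subset ?_
    rintro q ⟨hq, g, hg, hgq⟩
    obtain ⟨φ, hφ, hφq⟩ := hΦ g hg
    have hq' : g⁻¹ σ = q := by rw [← hgq]; exact g.symm_apply_apply q
    have hqL : q ∈ L := by rw [← hq']; exact S.map_lattice _ (inv_mem hg) σ hσL
    have hqN : q ∈ N := by rw [← hq']; exact S.map_cone _ (inv_mem hg) σ hσN
    refine mem_biUnion (x := φ) hφ ⟨φ q, ⟨S.map_lattice φ (hΦΓ hφ) q hqL,
      S.map_cone φ (hΦΓ hφ) q hqN, ?_⟩, φ.symm_apply_apply q⟩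
    rw [← hgq]
    exact hφq q hq
  obtain ⟨C, hC⟩ := (hQ.image f).bddAbove
  have hfnn : ∀ x ∈ N, 0 ≤ f x := by
    intro x hx
    by_cases h : x = 0
    · simp [h]
    · exact (hf x (subset_closure hx) h).le
  -- the restrictions to `J`
  let 𝒯 : Set (J → V) := {τ | ∃ g ∈ Γ, (∃ y ∈ PointedCone.hull ℝ (s : Set V), g y = σ) ∧
    ∀ p : J, τ p = g⁻¹ (p : V)}
  have h𝒯 : 𝒯.Finite := by
    refine (Set.Finite.pi' (fun _ : J => hB C)).subset ?_
    rintro τ ⟨g, hg, ⟨y, hy, hgy⟩, hτ⟩ p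
    rw [hτ p]
    have hg' := inv_mem hg
    refine ⟨S.map_lattice _ hg' _ (hJN p p.2).1, S.map_cone _ hg' _ (hJN p p.2).2.1, ?_⟩
    have h1 : f (g⁻¹ σ) ≤ C := by
      refine hC ⟨g⁻¹ σ, ⟨?_, g, hg, g.apply_symm_apply σ⟩, rfl⟩
      have : g⁻¹ σ = y := by rw [← hgy]; exact g.symm_apply_apply y
      rw [this]; exact hy
    have h2 : g⁻¹ σ = g⁻¹ (p : V) + g⁻¹ (∑ q ∈ J.erase p, q) := by
      rw [← map_add, Finset.add_sum_erase J (fun q => q) p.2]
    have h3 : 0 ≤ f (g⁻¹ (∑ q ∈ J.erase (p : V), q)) := by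
      refine hfnn _ (S.map_cone _ hg' _ (N.sum_mem fun q hq => (hJN q (Finset.mem_of_mem_erase hq)).2.1))
    have h4 : f (g⁻¹ σ) = f (g⁻¹ (p : V)) + f (g⁻¹ (∑ q ∈ J.erase (p : V), q)) := by
      rw [h2, map_add]
    linarith
  have h𝒯ex : ∀ τ ∈ 𝒯, ∃ g ∈ Γ, ∀ p : J, τ p = g⁻¹ (p : V) := by
    rintro τ ⟨g, hg, -, hτ⟩
    exact ⟨g, hg, hτ⟩
  choose! G hG hGτ using h𝒯ex
  refine ⟨h𝒯.toFinset.biUnion fun τ => s.image (G τ), ?_, ?_⟩
  · intro p hp
    obtain ⟨τ, hτ, hp⟩ := Finset.mem_biUnion.1 hp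
    obtain ⟨q, hq, rfl⟩ := Finset.mem_image.1 hp
    have hτ' := hG τ (h𝒯.mem_toFinset.1 hτ)
    obtain ⟨h1, h2, h3⟩ := hs q hq
    exact ⟨S.map_lattice _ hτ' q h1, S.map_cone _ hτ' q h2, hΓE _ hτ' q h3⟩
  · intro x hx
    obtain ⟨g, hg, hgσ, δ, hδ, y, hy, hgy⟩ := exists_germ S f hf s (fun p hp => (hs p hp).1)
      (fun p hp => (hs p hp).2.1) hcov J (fun p hp => (hJN p hp).1) (fun p hp => (hJN p hp).2.1)
      hσJ hx
    let τ : J → V := fun p => g⁻¹ (p : V)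
    have hτ : τ ∈ 𝒯 := ⟨g, hg, hgσ, fun _ => rfl⟩
    have hGΓ := hG τ hτ
    have hfix : ∀ p ∈ J, (G τ * g⁻¹) p = p := by
      intro p hp
      have h1 : g⁻¹ p = (G τ)⁻¹ p := hGτ τ hτ ⟨p, hp⟩
      show G τ (g⁻¹ p) = p
      rw [h1]
      exact (G τ).apply_symm_apply p
    have hfixσ : (G τ * g⁻¹) σ = σ := by
      rw [hσ, map_sum]
      exact Finset.sum_congr rfl hfix
    refine ⟨G τ * g⁻¹, ⟨mul_mem hGΓ (inv_mem hg), hfix⟩, δ⁻¹ • G τ y, ?_, ?_⟩
    · refine PointedCone.smul_mem _ (inv_nonneg.2 hδ.le) ?_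
      have h1 : G τ y ∈ imageCone (G τ) (PointedCone.hull ℝ (s : Set V)) := ⟨y, hy, rfl⟩
      have h2 : imageCone (G τ) (PointedCone.hull ℝ (s : Set V)) =
          PointedCone.hull ℝ ((s.image (G τ) : Finset V) : Set V) := by
        rw [Finset.coe_image]
        exact Submodule.map_span _ _
      rw [h2] at h1
      exact hull_mono_finset (Finset.subset_biUnion_of_mem (fun τ => s.image (G τ))
        (h𝒯.mem_toFinset.2 hτ)) h1
    · have h1 : (G τ * g⁻¹) (σ + δ • x) = G τ y := by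
        rw [← hgy]
        show G τ (g⁻¹ (g y)) = G τ y
        congr 1
        exact g.symm_apply_apply y
      rw [map_add, map_smul, hfixσ] at h1
      have h2 : (G τ * g⁻¹) x - δ⁻¹ • G τ y = -(δ⁻¹ • σ) := by
        rw [← h1, smul_add, smul_smul, inv_mul_cancel₀ hδ.ne', one_smul]
        abel
      rw [h2]
      refine Submodule.neg_mem _ (Submodule.smul_mem _ _ ?_)
      exact Submodule.sum_mem _ fun p hp => Submodule.subset_span hp

/-- The relative cone statement holds at the points of the translates of `P`. -/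
theorem relPoly_of_cover {N E : PointedCone ℝ V} {Γ : Subgroup (V ≃ₗ[ℝ] V)}
    (S : Setting L N Γ) (hΓE : ∀ g ∈ Γ, ∀ x ∈ E, g x ∈ E) (f : V →L[ℝ] ℝ)
    (hf : ∀ x ∈ closure (N : Set V), x ≠ 0 → 0 < f x)
    (s : Finset V) (hs : ∀ p ∈ s, p ∈ L ∧ p ∈ N ∧ p ∈ E)
    (hcov : ∀ x ∈ interior (N : Set V), ∃ g ∈ Γ, ∃ y ∈ PointedCone.hull ℝ (s : Set V), g y = x)
    {D : V} {γ : V ≃ₗ[ℝ] V} (hγ : γ ∈ Γ) {d : V} (hd : d ∈ PointedCone.hull ℝ (s : Set V))
    (hγd : γ d = D) : RelPoly L N E Γ D := by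
  classical
  obtain ⟨c, hc, hdc⟩ := mem_hull_finset.1 hd
  set J₀ := s.filter fun a => 0 < c a with hJ₀
  have hJ₀s : J₀ ⊆ s := Finset.filter_subset _ _
  have hdJ : d = ∑ a ∈ J₀, c a • a := by
    rw [hdc, hJ₀, Finset.sum_filter]
    refine Finset.sum_congr rfl fun a ha => ?_
    by_cases h : 0 < c a
    · rw [if_pos h]
    · rw [if_neg h, le_antisymm (not_lt.1 h) (hc a ha), zero_smul]
  have hcpos : ∀ a ∈ J₀, 0 < c a := fun a ha => (Finset.mem_filter.1 ha).2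
  set J := J₀.image γ with hJ
  have hJN : ∀ p ∈ J, p ∈ L ∧ p ∈ N ∧ p ∈ E := by
    intro p hp
    obtain ⟨q, hq, rfl⟩ := Finset.mem_image.1 hp
    obtain ⟨h1, h2, h3⟩ := hs q (hJ₀s hq)
    exact ⟨S.map_lattice γ hγ q h1, S.map_cone γ hγ q h2, hΓE γ hγ q h3⟩
  have hDJ : D = ∑ p ∈ J, c (γ.symm p) • p := by
    rw [hJ, Finset.sum_image (fun a _ b _ h => γ.injective h), ← hγd, hdJ, map_sum]
    refine Finset.sum_congr rfl fun a _ => ?_
    rw [map_smul, γ.symm_apply_apply]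
  refine ⟨J, hJN, ⟨fun p => c (γ.symm p), ?_, hDJ⟩, relCone_of_cover S hΓE f hf s hs hcov J hJN⟩
  intro p hp
  obtain ⟨q, hq, rfl⟩ := Finset.mem_image.1 hp
  show 0 < c (γ.symm (γ q))
  rw [γ.symm_apply_apply]
  exact hcpos q hq

/-- If the translates of a closed subset `Z` of a rational polyhedral cone cover the interior of `N`,
then every minimal point of `N` lies in a translate of `Z`. -/
theorem exists_translate {N : PointedCone ℝ V} {Γ : Subgroup (V ≃ₗ[ℝ] V)}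
    (S : Setting L N Γ) (f : V →L[ℝ] ℝ)
    (hf : ∀ x ∈ closure (N : Set V), x ≠ 0 → 0 < f x)
    (s : Finset V) (hsL : (s : Set V) ⊆ L) (hsN : (s : Set V) ⊆ N)
    (Z : Set V) (hZ : Z ⊆ (PointedCone.hull ℝ (s : Set V) : Set V)) (hZc : IsClosed Z)
    (hcov : ∀ x ∈ interior (N : Set V), ∃ g ∈ Γ, ∃ y ∈ Z, g y = x)
    {D : V} (hD : D ∈ N) (hmin : IsMinimal Γ f D) :
    ∃ g ∈ Γ, ∃ y ∈ Z, g y = D := by
  classical
  obtain ⟨e₀, he₀⟩ := S.interior_nonempty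
  obtain ⟨g₀, hg₀, hemin⟩ := exists_isMinimal S f hf he₀
  have he : g₀ e₀ ∈ interior (N : Set V) := interior_map_mem (S.map_cone g₀ hg₀) he₀
  set e := g₀ e₀
  have hfin := finite_minimizersR S s hsL hsN f hf
  let Y : Set V := ⋃ γ ∈ {γ : V ≃ₗ[ℝ] V | γ ∈ Γ ∧ ∃ z ∈ PointedCone.hull ℝ (s : Set V),
    z ∈ interior (N : Set V) ∧ IsMinimal Γ f (γ z)}, (γ : V → V) '' Z
  have hYcl : IsClosed Y := by
    refine hfin.isClosed_biUnion fun γ _ => ?_
    exact γ.toContinuousLinearEquiv.toHomeomorph.isClosedMap _ hZc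
  have hDY : D ∈ Y := by
    rw [← hYcl.closure_eq, mem_closure_iff_frequently]
    refine (tendsto_add_smul D e).frequently (p := fun y => y ∈ Y) ?_
    refine Filter.Frequently.of_forall fun n => ?_
    have hint : D + (1 / ((n : ℝ) + 1)) • e ∈ interior (N : Set V) := by
      rw [add_comm]
      exact interior_add_mem (interior_smul_mem he (by positivity)) hD
    obtain ⟨g, hg, y, hy, hgy⟩ := hcov _ hint
    refine mem_biUnion (x := g) ⟨hg, y, hZ hy, ?_, ?_⟩ ⟨y, hy, hgy⟩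
    · have h1 := interior_map_mem (S.map_cone _ (inv_mem hg)) hint
      rw [← hgy] at h1
      have h2 : g⁻¹ (g y) = y := g.symm_apply_apply y
      rwa [h2] at h1
    · rw [hgy]
      exact hmin.add (hemin.smul (by positivity))
  simp only [Y, mem_iUnion] at hDY
  obtain ⟨γ, ⟨hγ, -⟩, y, hy, hyx⟩ := hDY
  exact ⟨γ, hγ, y, hy, hyx⟩

end Pool.Agent.Lib.Pad47bbM
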