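import Pool.Agent.Lib.Pad47bbM.Ray

/-!
The relative cone statement at a single lattice point.
-/

open Set Topology

namespace Pool.Agent.Lib.Pad47bbM

open Pool.Agent.Lib.Pad47bb Pool.Agent.Lib.Pad47bbQ

variable {V : Type*} [NormedAddCommGroup V] [NormedSpace ℝ V]

/-- The relative cone statement at `D`: there is a finite set `Y` of lattice points of `N ∩ E` such
that every point `x` of the interior of `N` is moved into `cone Y + ℝ D` by an element of `Γ`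
fixing `D`. -/
def RelConeAt (L : Submodule ℤ V) (N E : PointedCone ℝ V) (Γ : Subgroup (V ≃ₗ[ℝ] V)) (D : V) :
    Prop :=
  ∃ Y : Finset V, (∀ p ∈ Y, p ∈ L ∧ p ∈ N ∧ p ∈ E) ∧
    ∀ x ∈ interior (N : Set V), ∃ g ∈ Γ, g D = D ∧ ∃ y ∈ PointedCone.hull ℝ (Y : Set V), ∃ t : ℝ,
      g x = y + t • D

theorem RelConeAt.of_relCone {L : Submodule ℤ V} {N E : PointedCone ℝ V}
    {Γ : Subgroup (V ≃ₗ[ℝ] V)} {D : V} (h : RelCone L N E Γ {D}) : RelConeAt L N E Γ D := by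
  obtain ⟨Y, hY, hcov⟩ := h
  refine ⟨Y, hY, fun x hx => ?_⟩
  obtain ⟨a, ha, y, hy, hay⟩ := hcov x hx
  rw [Finset.coe_singleton, Submodule.mem_span_singleton] at hay
  obtain ⟨t, ht⟩ := hay
  refine ⟨a, ha.1, ha.2 D (Finset.mem_singleton_self D), y, hy, t, ?_⟩
  rw [ht, add_sub_cancel]

/-- The elements of `Γ` fixing `D = ∑ J` permute the finitely many lattice points of `N` below `D`,
so the pointwise stabilizer of `J` has finite index in the stabilizer of `D`. -/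
theorem RelConeAt.relCone [FiniteDimensional ℝ V] {L : Submodule ℤ V} [DiscreteTopology L]
    {N E : PointedCone ℝ V} {Γ : Subgroup (V ≃ₗ[ℝ] V)} (hN : IsClosed (N : Set V))
    (hΓL : ∀ g ∈ Γ, ∀ x ∈ L, g x ∈ L) (hΓN : ∀ g ∈ Γ, ∀ x ∈ N, g x ∈ N)
    (hΓE : ∀ g ∈ Γ, ∀ x ∈ E, g x ∈ E) (f : V →L[ℝ] ℝ) (hf : ∀ x ∈ N, x ≠ 0 → 0 < f x)
    {J : Finset V} (hJ : ∀ p ∈ J, p ∈ L ∧ p ∈ N ∧ p ∈ E)
    (h : RelConeAt L N E Γ (∑ p ∈ J, p)) : RelCone L N E Γ J := by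
  classical
  obtain ⟨Y, hY, hcov⟩ := h
  set D : V := ∑ p ∈ J, p with hD
  have hf' : ∀ x ∈ closure (N : Set V), x ≠ 0 → 0 < f x := by
    rw [hN.closure_eq]
    exact hf
  have hf0 : ∀ x ∈ N, 0 ≤ f x := by
    intro x hx
    by_cases h0 : x = 0
    · rw [h0, map_zero]
    · exact (hf x hx h0).le
  -- lattice points below `D`
  set S : Set V := {x : V | x ∈ L ∧ x ∈ N ∧ f x ≤ f D} with hS
  have hSfin : S.Finite := finite_points (L := L) (K := N) f hf' (f D)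
  have hstab : ∀ g ∈ Γ, g D = D → ∀ p ∈ J, g p ∈ S := by
    intro g hg hgD p hp
    refine ⟨hΓL g hg p (hJ p hp).1, hΓN g hg p (hJ p hp).2.1, ?_⟩
    have h1 : f D = ∑ q ∈ J, f (g q) := by
      rw [← map_sum, ← map_sum, ← hD, hgD]
    rw [h1]
    exact Finset.single_le_sum (f := fun q => f (g q))
      (fun q hq => hf0 _ (hΓN g hg q (hJ q hq).2.1)) hp
  -- finitely many restrictions to `J`
  set A : Set (V ≃ₗ[ℝ] V) := {g | g ∈ Γ ∧ g D = D} with hA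
  let res : (V ≃ₗ[ℝ] V) → (J → V) := fun g p => g p
  have hres : (res '' A).Finite := by
    refine (Set.Finite.pi' (ι := J) (t := fun _ => S) fun _ => hSfin).subset ?_
    rintro _ ⟨g, ⟨hg, hgD⟩, rfl⟩ p
    exact hstab g hg hgD p p.2
  obtain ⟨B, hBA, hBfin, hB⟩ : ∃ B : Set (V ≃ₗ[ℝ] V), B ⊆ A ∧ B.Finite ∧ ∀ g ∈ A, ∃ b ∈ B,
      res b = res g := by
    have h1 : ∀ m ∈ res '' A, ∃ g ∈ A, res g = m := fun m hm => hm
    choose! γ hγ hγm using h1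
    refine ⟨γ '' (res '' A), ?_, hres.image γ, ?_⟩
    · rintro _ ⟨m, hm, rfl⟩
      exact hγ m hm
    · intro g hg
      exact ⟨γ (res g), ⟨res g, ⟨g, hg, rfl⟩, rfl⟩, hγm _ ⟨g, hg, rfl⟩⟩
  refine ⟨hBfin.toFinset.biUnion fun b => Y.image (b⁻¹ : V ≃ₗ[ℝ] V), ?_, fun x hx => ?_⟩
  · intro p hp
    simp only [Finset.mem_biUnion, Finset.mem_image, Set.Finite.mem_toFinset] at hp
    obtain ⟨b, hb, y, hy, rfl⟩ := hp
    have hbΓ : b⁻¹ ∈ Γ := inv_mem (hBA hb).1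
    exact ⟨hΓL _ hbΓ _ (hY y hy).1, hΓN _ hbΓ _ (hY y hy).2.1, hΓE _ hbΓ _ (hY y hy).2.2⟩
  · obtain ⟨g, hg, hgD, y, hy, t, hgx⟩ := hcov x hx
    obtain ⟨b, hb, hbg⟩ := hB g ⟨hg, hgD⟩
    have hbb : ∀ v : V, b⁻¹ (b v) = v := fun v => b.symm_apply_apply v
    have hbD : b⁻¹ D = D := by
      have := congrArg (b⁻¹ : V ≃ₗ[ℝ] V) (hBA hb).2
      rw [hbb] at this
      exact this.symm
    refine ⟨b⁻¹ * g, ⟨mul_mem (inv_mem (hBA hb).1) hg, fun p hp => ?_⟩, b⁻¹ y, ?_, ?_⟩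
    · have h1 : b p = g p := congrFun hbg ⟨p, hp⟩
      show b⁻¹ (g p) = p
      rw [← h1, hbb]
    · have h2 : PointedCone.hull ℝ (Y : Set V) ≤ PointedCone.comap ((b⁻¹ : V ≃ₗ[ℝ] V) : V →ₗ[ℝ] V)
          (PointedCone.hull ℝ ((hBfin.toFinset.biUnion fun b => Y.image (b⁻¹ : V ≃ₗ[ℝ] V) :
            Finset V) : Set V)) := by
        refine Submodule.span_le.2 fun z hz => ?_
        refine Submodule.subset_span ?_
        rw [Finset.mem_coe, Finset.mem_biUnion]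
        exact ⟨b, hBfin.mem_toFinset.2 hb, Finset.mem_image_of_mem _ hz⟩
      exact h2 hy
    · have h3 : (b⁻¹ * g) x = b⁻¹ y + t • D := by
        show b⁻¹ (g x) = _
        rw [hgx, map_add, map_smul, hbD]
      rw [h3, add_sub_cancel_left]
      refine Submodule.smul_mem _ t ?_
      rw [hD]
      exact Submodule.sum_mem _ fun p hp => Submodule.subset_span hp

/-- The relative cone statements for all `J` reduce to those for single lattice points. -/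
theorem relCone_forall_iff [FiniteDimensional ℝ V] {L : Submodule ℤ V} [DiscreteTopology L]
    {N E : PointedCone ℝ V} {Γ : Subgroup (V ≃ₗ[ℝ] V)} (hN : IsClosed (N : Set V))
    (hΓL : ∀ g ∈ Γ, ∀ x ∈ L, g x ∈ L) (hΓN : ∀ g ∈ Γ, ∀ x ∈ N, g x ∈ N)
    (hΓE : ∀ g ∈ Γ, ∀ x ∈ E, g x ∈ E) (f : V →L[ℝ] ℝ) (hf : ∀ x ∈ N, x ≠ 0 → 0 < f x)
    (O : Set V) :
    (∀ J : Finset V, (∀ p ∈ J, p ∈ L ∧ p ∈ N ∧ p ∈ E) → ∑ p ∈ J, p ≠ 0 → ∑ p ∈ J, p ∉ O →
      RelCone L N E Γ J) ↔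
    ∀ D ∈ L, D ∈ N → D ∈ E → D ≠ 0 → D ∉ O → RelConeAt L N E Γ D := by
  constructor
  · intro h D hDL hDN hDE hD0 hDO
    refine RelConeAt.of_relCone (h {D} ?_ ?_ ?_)
    · intro p hp
      rw [Finset.mem_singleton] at hp
      subst hp
      exact ⟨hDL, hDN, hDE⟩
    · rwa [Finset.sum_singleton]
    · rwa [Finset.sum_singleton]
  · intro h J hJ hJ0 hJO
    refine RelConeAt.relCone hN hΓL hΓN hΓE f hf hJ (h _ ?_ ?_ ?_ hJ0 hJO)
    · exact Submodule.sum_mem _ fun p hp => (hJ p hp).1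
    · exact N.sum_mem fun p hp => (hJ p hp).2.1
    · exact E.sum_mem fun p hp => (hJ p hp).2.2

end Pool.Agent.Lib.Pad47bbM
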