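import Pool.Agent.Lib.Pad47bb.Poly

/-!
Caratheodory's theorem for finitely generated cones, and the local structure of such a cone.
-/

open Set Topology

namespace Pool.Agent.Lib.Pad47bbM

open Pool.Agent.Lib.Pad47bb

variable {V : Type*} [AddCommGroup V] [Module ℝ V]

theorem cara_aux (n : ℕ) : ∀ (s : Finset V), s.card = n → ∀ (c : V → ℝ), (∀ a ∈ s, 0 ≤ c a) →
    ∃ t ⊆ s, LinearIndependent ℝ (fun a : t => (a : V)) ∧ ∃ d : V → ℝ, (∀ a ∈ t, 0 < d a) ∧
      ∑ a ∈ s, c a • a = ∑ a ∈ t, d a • a := by
  classical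
  induction n with
  | zero =>
    intro s hs c _
    rw [Finset.card_eq_zero] at hs
    subst hs
    refine ⟨∅, Finset.Subset.refl _, ?_, fun _ => 0, by simp, rfl⟩
    have : IsEmpty (∅ : Finset V) := ⟨fun a => Finset.notMem_empty _ a.2⟩
    exact linearIndependent_empty_type
  | succ n ih =>
    intro s hs c hc
    by_cases hz : ∃ a ∈ s, c a = 0
    · obtain ⟨a, ha, hca⟩ := hz
      obtain ⟨t, hts, hli, d, hd, hsum⟩ := ih (s.erase a)
        (by rw [Finset.card_erase_of_mem ha, hs]; rfl) c (fun b hb => hc b (Finset.mem_of_mem_erase hb))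
      refine ⟨t, hts.trans (Finset.erase_subset _ _), hli, d, hd, ?_⟩
      rw [← hsum, ← Finset.add_sum_erase s _ ha, hca, zero_smul, zero_add]
    · push Not at hz
      have hpos : ∀ a ∈ s, 0 < c a := fun a ha => lt_of_le_of_ne (hc a ha) (Ne.symm (hz a ha))
      by_cases hli : LinearIndependent ℝ (fun a : s => (a : V))
      · exact ⟨s, Finset.Subset.refl _, hli, c, hpos, rfl⟩
      · rw [Fintype.not_linearIndependent_iff] at hli
        obtain ⟨g₀, hg₀, i₀, hi₀⟩ := hli
        -- extend to a function on `V`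
        let g₁ : V → ℝ := fun a => if h : a ∈ s then g₀ ⟨a, h⟩ else 0
        have hg₁ : ∑ a ∈ s, g₁ a • a = 0 := by
          rw [← hg₀, ← Finset.sum_coe_sort s (fun a => g₁ a • a)]
          refine Finset.sum_congr rfl fun a _ => ?_
          simp only [g₁, a.2, dif_pos]
        have hg₁' : g₁ (i₀ : V) ≠ 0 := by
          simp only [g₁, i₀.2, dif_pos]
          exact hi₀
        obtain ⟨g, hg, i, hi, hgi⟩ : ∃ g : V → ℝ, ∑ a ∈ s, g a • a = 0 ∧ ∃ i ∈ s, 0 < g i := by
          rcases lt_or_gt_of_ne hg₁' with h | h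
          · refine ⟨fun a => -g₁ a, ?_, i₀, i₀.2, by simpa using h⟩
            simp only [neg_smul, Finset.sum_neg_distrib, hg₁, neg_zero]
          · exact ⟨g₁, hg₁, i₀, i₀.2, h⟩
        obtain ⟨b, hb, hbmin⟩ := (s.filter fun a => 0 < g a).exists_min_image (fun a => c a / g a)
          ⟨i, Finset.mem_filter.2 ⟨hi, hgi⟩⟩
        obtain ⟨hbs, hgb⟩ := Finset.mem_filter.1 hb
        let lam : ℝ := c b / g b
        have hlam : 0 ≤ lam := div_nonneg (hc b hbs) hgb.le
        have hc' : ∀ a ∈ s, 0 ≤ c a - lam * g a := by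
          intro a ha
          by_cases h : 0 < g a
          · have := hbmin a (Finset.mem_filter.2 ⟨ha, h⟩)
            have h2 : lam * g a ≤ c a := by
              have h3 := mul_le_mul_of_nonneg_right this h.le
              rwa [div_mul_cancel₀ _ h.ne'] at h3
            linarith
          · have h1 := hc a ha
            have h2 : lam * g a ≤ 0 := mul_nonpos_of_nonneg_of_nonpos hlam (not_lt.1 h)
            linarith
        have hb0 : c b - lam * g b = 0 := by
          simp only [lam]
          rw [div_mul_cancel₀ _ hgb.ne', sub_self]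
        have hsum' : ∑ a ∈ s, c a • a = ∑ a ∈ s.erase b, (c a - lam * g a) • a := by
          have h1 : ∑ a ∈ s, (c a - lam * g a) • a = ∑ a ∈ s, c a • a := by
            simp only [sub_smul, Finset.sum_sub_distrib, mul_smul]
            rw [← Finset.smul_sum, hg, smul_zero, sub_zero]
          rw [← h1, ← Finset.add_sum_erase s _ hbs, hb0, zero_smul, zero_add]
        obtain ⟨t, hts, hli, d, hd, hsum⟩ := ih (s.erase b)
          (by rw [Finset.card_erase_of_mem hbs, hs]; rfl) (fun a => c a - lam * g a)
          (fun a ha => hc' a (Finset.mem_of_mem_erase ha))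
        exact ⟨t, hts.trans (Finset.erase_subset _ _), hli, d, hd, hsum'.trans hsum⟩

/-- Caratheodory's theorem for cones. -/
theorem caratheodory {V : Type*} [NormedAddCommGroup V] [NormedSpace ℝ V] {s : Finset V} {x : V}
    (hx : x ∈ PointedCone.hull ℝ (s : Set V)) :
    ∃ t ⊆ s, LinearIndependent ℝ (fun a : t => (a : V)) ∧ ∃ d : V → ℝ, (∀ a ∈ t, 0 < d a) ∧
      x = ∑ a ∈ t, d a • a := by
  obtain ⟨c, hc, rfl⟩ := mem_hull_finset.1 hx
  exact cara_aux s.card s rfl c hc

/-- Near one of its points `D`, a finitely generated cone coincides with its tangent cone. -/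
theorem local_cone {V : Type*} [NormedAddCommGroup V] [NormedSpace ℝ V] [FiniteDimensional ℝ V]
    (s : Finset V) (D : V) :
    ∃ U ∈ 𝓝 D, ∀ r ∈ U, ∀ t : ℝ, 0 ≤ t → r + t • D ∈ PointedCone.hull ℝ (s : Set V) →
      r ∈ PointedCone.hull ℝ (s : Set V) := by
  classical
  -- separating functionals
  have key : ∀ t : Finset V, -D ∈ t → LinearIndependent ℝ (fun a : t => (a : V)) →
      ∃ l : V →L[ℝ] ℝ, l (-D) = 1 ∧ ∀ a ∈ t, a ≠ -D → l a = 0 := by
    intro t hDt hli
    have hli' : LinearIndepOn ℝ id (t : Set V) := hli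
    let b := Module.Basis.extend hli'
    have hsub := Module.Basis.subset_extend hli'
    have hb : ∀ (a : V) (ha : a ∈ t), b ⟨a, hsub ha⟩ = a := fun a ha =>
      Module.Basis.extend_apply_self hli' ⟨a, hsub ha⟩
    have hc1 : ∀ (i j : hli'.extend (Set.subset_univ _)), b.coord i (b j) = if j = i then 1 else 0 := by
      intro i j
      rw [Module.Basis.coord_apply, Module.Basis.repr_self, Finsupp.single_apply]
    refine ⟨LinearMap.toContinuousLinearMap (b.coord ⟨-D, hsub hDt⟩), ?_, ?_⟩
    · have h1 := hc1 ⟨-D, hsub hDt⟩ ⟨-D, hsub hDt⟩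
      rw [if_pos rfl, hb (-D) hDt] at h1
      exact h1
    · intro a ha hne
      have h1 := hc1 ⟨-D, hsub hDt⟩ ⟨a, hsub ha⟩
      rw [if_neg (fun h => hne (congrArg Subtype.val h)), hb a ha] at h1
      exact h1
  choose! l hl1 hl0 using key
  let T : Finset (Finset V) := (insert (-D) s).powerset.filter
    fun t => -D ∈ t ∧ LinearIndependent ℝ (fun a : t => (a : V))
  refine ⟨⋂ t ∈ T, {r | l t r < 0}, ?_, ?_⟩
  · rw [Filter.biInter_finset_mem]
    intro t ht
    obtain ⟨-, h1, h2⟩ := Finset.mem_filter.1 ht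
    have h3 : l t D < 0 := by
      have := hl1 t h1 h2
      rw [map_neg] at this
      linarith
    exact (isOpen_lt (l t).continuous continuous_const).mem_nhds h3
  · intro r hr τ hτ hmem
    by_contra hrs
    have hr' : r ∈ PointedCone.hull ℝ ((insert (-D) s : Finset V) : Set V) := by
      have h1 : r = (r + τ • D) + τ • (-D) := by rw [smul_neg]; abel
      rw [h1]
      refine Submodule.add_mem _ ?_ ?_
      · exact (Submodule.span_mono (by rw [Finset.coe_insert]; exact subset_insert _ _)) hmem
      · exact PointedCone.smul_mem _ hτ (Submodule.subset_span (Finset.mem_insert_self _ _))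
    obtain ⟨t, hts, hli, d, hd, hrd⟩ := caratheodory hr'
    by_cases hDt : -D ∈ t
    · have htT : t ∈ T := Finset.mem_filter.2 ⟨Finset.mem_powerset.2 hts, hDt, hli⟩
      have h1 : l t r < 0 := by
        have := mem_iInter₂.1 hr t htT
        exact this
      have h2 : l t r = d (-D) := by
        rw [hrd, map_sum, Finset.sum_eq_single (-D)]
        · rw [map_smul, hl1 t hDt hli, smul_eq_mul, mul_one]
        · intro a ha hne
          rw [map_smul, hl0 t hDt hli a ha hne, smul_zero]
        · intro h
          exact absurd hDt h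
      have h3 := hd _ hDt
      linarith
    · apply hrs
      rw [hrd]
      refine Submodule.sum_mem _ fun a ha => ?_
      refine PointedCone.smul_mem _ (hd a ha).le (Submodule.subset_span ?_)
      rcases Finset.mem_insert.1 (hts ha) with h | h
      · exact absurd (h ▸ ha) hDt
      · exact h

end Pool.Agent.Lib.Pad47bbM
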