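import Pool.Agent.Lib.Pad47bbM.Siegel

/-!
Closing up, and the relative cone statement at points where the cone is locally polyhedral.
-/

open Set Topology

namespace Pool.Agent.Lib.Pad47bbM

open Pool.Agent.Lib.Pad47bb Pool.Agent.Lib.Pad47bbQ Pool.Agent.Lib.Pad47bbC

variable {V : Type*} [NormedAddCommGroup V] [NormedSpace ℝ V]

variable [FiniteDimensional ℝ V]

/-- The data of the cone conjecture. -/
structure Data (L : Submodule ℤ V) (N E : PointedCone ℝ V) (Γ : Subgroup (V ≃ₗ[ℝ] V)) : Prop where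
  closed : IsClosed (N : Set V)
  le : (N : Set V) ⊆ closure (E : Set V)
  salient : ∀ x ∈ closure (E : Set V), -x ∈ closure (E : Set V) → x = 0
  int_nonempty : (interior (N : Set V)).Nonempty
  gen : E = PointedCone.hull ℝ ((E : Set V) ∩ (L : Set V))
  map_lattice : ∀ g ∈ Γ, ∀ x ∈ L, g x ∈ L
  map_N : ∀ g ∈ Γ, ∀ x ∈ N, g x ∈ N
  map_E : ∀ g ∈ Γ, ∀ x ∈ E, g x ∈ E

variable {L : Submodule ℤ V} {N E : PointedCone ℝ V} {Γ : Subgroup (V ≃ₗ[ℝ] V)}

theorem Data.intE (T : Data L N E Γ) : (interior (E : Set V)).Nonempty := by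
  have hconv : Convex ℝ (E : Set V) := PointedCone.convex E
  have h1 : (interior (closure (E : Set V))).Nonempty := T.int_nonempty.mono (interior_mono T.le)
  have h2 : affineSpan ℝ (closure (E : Set V)) = ⊤ :=
    (hconv.closure.interior_nonempty_iff_affineSpan_eq_top).1 h1
  have h3 : closure (E : Set V) ⊆ (affineSpan ℝ (E : Set V) : Set V) :=
    closure_minimal (subset_affineSpan ℝ _)
      (AffineSubspace.closed_of_finiteDimensional _)
  have h4 : affineSpan ℝ (E : Set V) = ⊤ := by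
    rw [eq_top_iff, ← h2]
    exact affineSpan_le.2 h3
  exact (hconv.interior_nonempty_iff_affineSpan_eq_top).2 h4

theorem Data.intN_subset (T : Data L N E Γ) : interior (N : Set V) ⊆ interior (E : Set V) := by
  have hconv : Convex ℝ (E : Set V) := PointedCone.convex E
  rw [← hconv.interior_closure_eq_interior_of_nonempty_interior T.intE]
  exact interior_mono T.le

omit [FiniteDimensional ℝ V] in
theorem Data.zero_notMem [Nontrivial V] (T : Data L N E Γ) : (0 : V) ∉ interior (E : Set V) := by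
  intro h0
  obtain ⟨v, hv⟩ := exists_ne (0 : V)
  obtain ⟨r, hr, hball⟩ := Metric.isOpen_iff.1 isOpen_interior 0 h0
  have hvn : 0 < ‖v‖ := norm_pos_iff.2 hv
  have key : ∀ w : V, ‖w‖ = ‖v‖ → (r / (2 * ‖v‖)) • w ∈ closure (E : Set V) := by
    intro w hw
    apply subset_closure
    apply interior_subset
    apply hball
    rw [Metric.mem_ball, dist_zero_right, norm_smul, Real.norm_of_nonneg (by positivity), hw]
    have : r / (2 * ‖v‖) * ‖v‖ = r / 2 := by field_simp
    rw [this]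
    linarith
  have h1 := T.salient _ (key v rfl) (by
    rw [← smul_neg]
    exact key (-v) (norm_neg v))
  rcases smul_eq_zero.1 h1 with h | h
  · have : 0 < r / (2 * ‖v‖) := by positivity
    exact this.ne' h
  · exact hv h

theorem Data.settingE (T : Data L N E Γ) : Setting L E Γ :=
  ⟨T.salient, T.intE, T.map_lattice, T.map_E⟩

omit [FiniteDimensional ℝ V] in
theorem Data.settingN (T : Data L N E Γ) : Setting L N Γ where
  salient := by
    intro x hx hx'
    rw [T.closed.closure_eq] at hx hx'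
    exact T.salient x (T.le hx) (T.le hx')
  interior_nonempty := T.int_nonempty
  map_lattice := T.map_lattice
  map_cone := T.map_N

theorem Data.settingNE (T : Data L N E Γ) : Setting L (N ⊓ E) Γ where
  salient := by
    intro x hx hx'
    have h1 : closure ((N ⊓ E : PointedCone ℝ V) : Set V) ⊆ closure (E : Set V) :=
      closure_mono fun y hy => hy.2
    exact T.salient x (h1 hx) (h1 hx')
  interior_nonempty := by
    obtain ⟨x, hx⟩ := T.int_nonempty
    refine ⟨x, ?_⟩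
    rw [mem_interior]
    exact ⟨interior (N : Set V), fun y hy => ⟨interior_subset hy,
      interior_subset (T.intN_subset hy)⟩, isOpen_interior, hx⟩
  map_lattice := T.map_lattice
  map_cone := fun g hg x hx => ⟨T.map_N g hg x hx.1, T.map_E g hg x hx.2⟩

omit [FiniteDimensional ℝ V] in
theorem Data.exists_finset (T : Data L N E Γ) {x : V} (hx : x ∈ E) :
    ∃ u : Finset V, (u : Set V) ⊆ L ∧ (u : Set V) ⊆ E ∧ x ∈ PointedCone.hull ℝ (u : Set V) := by
  rw [T.gen] at hx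
  obtain ⟨u, hu, hxu⟩ := Submodule.mem_span_finite_of_mem_span hx
  exact ⟨u, fun a ha => (hu ha).2, fun a ha => (hu ha).1, hxu⟩

variable [DiscreteTopology L] [IsZLattice ℝ L]

/-- If the translates of a rational polyhedral cone `P ≤ N ⊓ E` cover the interior of `N`, then `Γ`
has a rational polyhedral fundamental domain on `N ⊓ E`. -/
theorem Data.hasRPFD_of_cover (T : Data L N E Γ) {P : PointedCone ℝ V} (hP : IsRatPoly L P)
    (hPNE : P ≤ N ⊓ E) (hcov : ∀ x ∈ interior (N : Set V), ∃ g ∈ Γ, g x ∈ P) :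
    HasRPFD L Γ (N ⊓ E) := by
  obtain ⟨s, hsL, hsP⟩ := hP
  obtain ⟨f, hf⟩ := exists_pos E T.salient
  have hsE : (s : Set V) ⊆ E := by
    intro a ha
    have : a ∈ P := by rw [hsP]; exact Submodule.subset_span ha
    exact (hPNE this).2
  have hPc : IsClosed (P : Set V) := by
    rw [hsP]
    exact isClosed_hull f hf s hsE
  have hcovZ : ∀ x ∈ N ⊓ E, ∃ g ∈ Γ, ∃ y ∈ (P : Set V), g y = x := by
    intro x hx
    obtain ⟨e, he⟩ := T.int_nonempty
    refine closing_point T.settingE s hsL hsE (fun x hx => T.exists_finset hx) P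
      (by rw [hsP]) hPc x e hx.2 (T.intN_subset he) ?_
    intro n
    have hxn : x + (1 / ((n : ℝ) + 1)) • e ∈ interior (N : Set V) := by
      rw [add_comm]
      exact interior_add_mem (interior_smul_mem he (by positivity)) hx.1
    obtain ⟨g, hg, hgx⟩ := hcov _ hxn
    exact ⟨g⁻¹, inv_mem hg, g (x + (1 / ((n : ℝ) + 1)) • e), hgx, g.symm_apply_apply _⟩
  refine exists_fundDomain T.settingNE (P₁ := P) ⟨s, hsL, hsP⟩ ?_
  apply Subset.antisymm
  · intro x hx
    obtain ⟨g, hg, y, hy, hyx⟩ := hcovZ x hx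
    exact mem_biUnion hg ⟨y, hy, hyx⟩
  · refine iUnion₂_subset fun g hg => ?_
    rintro _ ⟨p, hp, rfl⟩
    exact T.settingNE.map_cone g hg p (hPNE hp)

/-- the relative cone statement holds at the points where `N` is locally rational polyhedral -/
theorem Data.exists_local [Nontrivial V] (T : Data L N E Γ) {D : V} (hD : D ∈ N)
    (hDE : D ∈ interior (E : Set V)) (hloc : IsLocRatPoly L N D) :
    ∃ s : Finset V, (∀ p ∈ s, p ∈ L ∧ p ∈ N ∧ p ∈ E) ∧ D ∈ PointedCone.hull ℝ (s : Set V) ∧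
      ∀ x ∈ interior (N : Set V), ∃ δ : ℝ, 0 < δ ∧ D + δ • x ∈ PointedCone.hull ℝ (s : Set V) := by
  classical
  obtain ⟨P', hP', U, hU, hUN⟩ := hloc
  have hD0 : D ≠ 0 := fun h => T.zero_notMem (h ▸ hDE)
  obtain ⟨P, ⟨s, hsL, hsP⟩, hPNE, -, U', hU', hU'N⟩ := exists_ratPoly_local hD0 hD hDE hP' hU hUN
  refine ⟨s, ?_, ?_, ?_⟩
  · intro p hp
    have : p ∈ P := by rw [hsP]; exact Submodule.subset_span hp
    exact ⟨hsL hp, (hPNE this).1, (hPNE this).2⟩
  · rw [← hsP]
    exact hU'N ⟨mem_of_mem_nhds hU', hD⟩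
  · intro x hx
    have hev := (tendsto_add_smul D x).eventually hU'
    obtain ⟨n, hn⟩ := hev.exists
    refine ⟨1 / ((n : ℝ) + 1), by positivity, ?_⟩
    rw [← hsP]
    refine hU'N ⟨hn, N.add_mem hD ?_⟩
    exact PointedCone.smul_mem _ (by positivity) (interior_subset hx)

/-- from a germ to the relative cone statement -/
theorem relCone_of_local {J s : Finset V} (hs : ∀ p ∈ s, p ∈ L ∧ p ∈ N ∧ p ∈ E) {D : V}
    (hD : D ∈ Submodule.span ℝ (J : Set V))
    (h : ∀ x ∈ interior (N : Set V), ∃ δ : ℝ, 0 < δ ∧ D + δ • x ∈ PointedCone.hull ℝ (s : Set V)) :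
    RelCone L N E Γ J := by
  refine ⟨s, hs, fun x hx => ?_⟩
  obtain ⟨δ, hδ, hmem⟩ := h x hx
  refine ⟨1, one_mem _, δ⁻¹ • (D + δ • x),
    PointedCone.smul_mem _ (inv_nonneg.2 hδ.le) hmem, ?_⟩
  have h1 : (1 : V ≃ₗ[ℝ] V) x - δ⁻¹ • (D + δ • x) = -(δ⁻¹ • D) := by
    show x - δ⁻¹ • (D + δ • x) = -(δ⁻¹ • D)
    rw [smul_add, smul_smul, inv_mul_cancel₀ hδ.ne', one_smul]
    abel
  rw [h1]
  exact Submodule.neg_mem _ (Submodule.smul_mem _ _ hD)

/-- the relative cone statement for `J` when `∑ p ∈ J, p` is interior to `E` -/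
theorem Data.relCone_of_locRatPoly [Nontrivial V] (T : Data L N E Γ) {J : Finset V}
    (hJ : ∀ p ∈ J, p ∈ L ∧ p ∈ N ∧ p ∈ E) (hJE : ∑ p ∈ J, p ∈ interior (E : Set V))
    (hloc : IsLocRatPoly L N (∑ p ∈ J, p)) : RelCone L N E Γ J := by
  obtain ⟨s, hs, -, h⟩ := T.exists_local (N.sum_mem fun p hp => (hJ p hp).2.1) hJE hloc
  exact relCone_of_local hs (Submodule.sum_mem _ fun p hp => Submodule.subset_span hp) h

/-- the relative cone statement holds at the points where `N` is locally rational polyhedral -/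
theorem Data.relPoly_of_locRatPoly [Nontrivial V] (T : Data L N E Γ) {D : V} (hD : D ∈ N)
    (hDE : D ∈ interior (E : Set V)) (hloc : IsLocRatPoly L N D) : RelPoly L N E Γ D := by
  classical
  obtain ⟨s, hs, hDP, h⟩ := T.exists_local hD hDE hloc
  obtain ⟨c, hc, hdc⟩ := mem_hull_finset.1 hDP
  set J := s.filter fun a => 0 < c a with hJ
  have hJs : J ⊆ s := Finset.filter_subset _ _
  have hDJ : D = ∑ a ∈ J, c a • a := by
    rw [hdc, hJ, Finset.sum_filter]
    refine Finset.sum_congr rfl fun a ha => ?_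
    by_cases h : 0 < c a
    · rw [if_pos h]
    · rw [if_neg h, le_antisymm (not_lt.1 h) (hc a ha), zero_smul]
  refine ⟨J, fun p hp => hs p (hJs hp), ⟨c, fun a ha => (Finset.mem_filter.1 ha).2, hDJ⟩,
    relCone_of_local hs ?_ h⟩
  rw [hDJ]
  exact Submodule.sum_mem _ fun p hp => Submodule.smul_mem _ _ (Submodule.subset_span hp)

/-- A rational polyhedral fundamental domain on `N ⊓ E` gives the relative cone statement at all
points of `N ⊓ E`, and the minimal points of `N` lie in `E`. -/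
theorem Data.relPoly_of_hasRPFD (T : Data L N E Γ) (f : V →L[ℝ] ℝ)
    (hf : ∀ x ∈ N, x ≠ 0 → 0 < f x) (h : HasRPFD L Γ (N ⊓ E)) :
    (∀ D ∈ N ⊓ E, RelPoly L N E Γ D) ∧ ∀ D ∈ N, IsMinimal Γ f D → D ∈ E := by
  have hf' : ∀ x ∈ closure (N : Set V), x ≠ 0 → 0 < f x := by
    rw [T.closed.closure_eq]
    exact hf
  obtain ⟨P, ⟨s, hsL, hsP⟩, hPcov, -⟩ := h
  have hPNE : (P : Set V) ⊆ ((N ⊓ E : PointedCone ℝ V) : Set V) := by
    rw [hPcov]
    intro x hx
    exact mem_biUnion (one_mem Γ) ⟨x, hx, rfl⟩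
  have hs : ∀ p ∈ s, p ∈ L ∧ p ∈ N ∧ p ∈ E := by
    intro p hp
    have : p ∈ P := by rw [hsP]; exact Submodule.subset_span hp
    exact ⟨hsL hp, (hPNE this).1, (hPNE this).2⟩
  have hcov' : ∀ x ∈ N ⊓ E, ∃ g ∈ Γ, ∃ y ∈ PointedCone.hull ℝ (s : Set V), g y = x := by
    intro x hx
    have hxNE : x ∈ ((N ⊓ E : PointedCone ℝ V) : Set V) := hx
    rw [hPcov] at hxNE
    simp only [mem_iUnion] at hxNE
    obtain ⟨g, hg, y, hy, hyx⟩ := hxNE
    exact ⟨g, hg, y, by rw [← hsP]; exact hy, hyx⟩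
  have hcov : ∀ x ∈ interior (N : Set V), ∃ g ∈ Γ, ∃ y ∈ PointedCone.hull ℝ (s : Set V),
      g y = x := fun x hx => hcov' x ⟨interior_subset hx, interior_subset (T.intN_subset hx)⟩
  constructor
  · intro D hD
    obtain ⟨g, hg, y, hy, hyD⟩ := hcov' D hD
    exact relPoly_of_cover T.settingN T.map_E f hf' s hs hcov hg hy hyD
  · intro D hD hmin
    obtain ⟨g, hg, y, hy, hyD⟩ := exists_translate T.settingN f hf' s (fun p hp => (hs p hp).1)
      (fun p hp => (hs p hp).2.1) _ Subset.rfl (isClosed_hull f hf' s fun p hp => (hs p hp).2.1)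
      hcov hD hmin
    rw [← hyD]
    have hyP : y ∈ P := by rw [hsP]; exact hy
    exact T.map_E g hg y (hPNE hyP).2

/-- The criterion by minimal points. -/
theorem Data.hasRPFD_of_relPoly (T : Data L N E Γ) (f : V →L[ℝ] ℝ)
    (hf : ∀ x ∈ N, x ≠ 0 → 0 < f x)
    (h : ∀ D ∈ N, D ≠ 0 → IsMinimal Γ f D → RelPoly L N E Γ D) : HasRPFD L Γ (N ⊓ E) := by
  have hf' : ∀ x ∈ closure (N : Set V), x ≠ 0 → 0 < f x := by
    rw [T.closed.closure_eq]
    exact hf
  obtain ⟨P, hP, hPNE, hPmem⟩ := exists_ratPoly_of_relPoly T.settingN T.closed T.map_E f hf' h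
  refine T.hasRPFD_of_cover hP hPNE fun x hx => ?_
  obtain ⟨g, hg, hmin⟩ := exists_isMinimal T.settingN f hf' hx
  exact ⟨g, hg, hPmem _ (interior_map_mem (T.map_N g hg) hx) hmin⟩

/-- If the translates of the cone over a compact subset `Q` of `N ∩ interior E` cover the interior
of `N`, then the nonzero minimal points of `N` lie in the interior of `E`. -/
theorem Data.mem_interior_of_compact [Nontrivial V] (T : Data L N E Γ) (f : V →L[ℝ] ℝ)
    (hf : ∀ x ∈ N, x ≠ 0 → 0 < f x)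
    (hloc : ∀ D ∈ N, D ∈ interior (E : Set V) → IsLocRatPoly L N D)
    {Q : Set V} (hQ : IsCompact Q) (hQN : Q ⊆ (N : Set V) ∩ interior (E : Set V))
    (hcov : ∀ x ∈ interior (N : Set V), ∃ g ∈ Γ, ∃ c : ℝ, 0 ≤ c ∧ ∃ q ∈ Q, g x = c • q)
    {D : V} (hD : D ∈ N) (hD0 : D ≠ 0) (hmin : IsMinimal Γ f D) : D ∈ interior (E : Set V) := by
  have hf' : ∀ x ∈ closure (N : Set V), x ≠ 0 → 0 < f x := by
    rw [T.closed.closure_eq]
    exact hf
  have h0Q : (0 : V) ∉ Q := fun h => T.zero_notMem (hQN h).2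
  obtain ⟨P, ⟨s, hsL, hsP⟩, hPNE, hQP⟩ := exists_ratPoly_compact (L := L) hQ h0Q
    (fun q hq => (hQN hq).1) (fun q hq => (hQN hq).2) (fun q hq => hloc q (hQN hq).1 (hQN hq).2)
  have hsN : (s : Set V) ⊆ N := by
    intro a ha
    have : a ∈ P := by rw [hsP]; exact Submodule.subset_span ha
    exact (hPNE this).1
  obtain ⟨g, hg, y, ⟨c, hc, q, hq, rfl⟩, hyD⟩ := exists_translate T.settingN f hf' s hsL hsN
    {y : V | ∃ c : ℝ, 0 ≤ c ∧ ∃ q ∈ Q, y = c • q} (by
      rintro y ⟨c, hc, q, hq, rfl⟩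
      rw [← hsP]
      exact PointedCone.smul_mem _ hc (hQP hq)) (isClosed_cone_of_isCompact hQ h0Q) (by
      intro x hx
      obtain ⟨g, hg, c, hc, q, hq, hgx⟩ := hcov x hx
      exact ⟨g⁻¹, inv_mem hg, g x, ⟨c, hc, q, hq, hgx⟩, g.symm_apply_apply x⟩) hD hmin
  rw [← hyD]
  refine interior_map_mem (T.map_E g hg) (interior_smul_mem (hQN hq).2 (lt_of_le_of_ne hc ?_))
  rintro rfl
  rw [zero_smul, map_zero] at hyD
  exact hD0 hyD.symm

/-- A rational polyhedral fundamental domain on `N ⊓ E` gives a compact set. -/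
theorem Data.exists_compact [Nontrivial V] (T : Data L N E Γ) (h : HasRPFD L Γ (N ⊓ E)) {O : Set V}
    (hO : ∀ x ∈ N ⊓ E, x ≠ 0 → x ∈ O) :
    ∃ Q : Set V, IsCompact Q ∧ Q ⊆ (N : Set V) ∩ O ∧
      ∀ x ∈ interior (N : Set V), ∃ g ∈ Γ, ∃ c : ℝ, 0 ≤ c ∧ ∃ q ∈ Q, g x = c • q := by
  obtain ⟨f, hf⟩ := exists_pos E T.salient
  obtain ⟨P, ⟨s, hsL, hsP⟩, hPcov, -⟩ := h
  have hPNE : (P : Set V) ⊆ ((N ⊓ E : PointedCone ℝ V) : Set V) := by
    rw [hPcov]
    intro x hx
    exact mem_biUnion (one_mem Γ) ⟨x, hx, rfl⟩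
  have hPc : IsClosed (P : Set V) := by
    rw [hsP]
    refine isClosed_hull f hf s ?_
    intro a ha
    have : a ∈ P := by rw [hsP]; exact Submodule.subset_span ha
    exact (hPNE this).2
  have hz : (0 : V) ∉ interior (N : Set V) := fun h => T.zero_notMem (T.intN_subset h)
  refine ⟨(P : Set V) ∩ Metric.sphere 0 1, (isCompact_sphere 0 1).inter_left hPc, ?_, ?_⟩
  · rintro x ⟨hxP, hx1⟩
    refine ⟨(hPNE hxP).1, hO x (hPNE hxP) ?_⟩
    rintro rfl
    simp at hx1
  · intro x hx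
    have hxNE : x ∈ ((N ⊓ E : PointedCone ℝ V) : Set V) :=
      ⟨interior_subset hx, interior_subset (T.intN_subset hx)⟩
    have hx0 : x ≠ 0 := by
      rintro rfl
      exact hz hx
    rw [hPcov] at hxNE
    simp only [mem_iUnion] at hxNE
    obtain ⟨g, hg, y, hy, hyx⟩ := hxNE
    have hgx : g⁻¹ x = y := by rw [← hyx]; exact g.symm_apply_apply y
    have hy0 : y ≠ 0 := by
      rintro rfl
      rw [map_zero] at hyx
      exact hx0 hyx.symm
    have hyn : 0 < ‖y‖ := norm_pos_iff.2 hy0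
    refine ⟨g⁻¹, inv_mem hg, ‖y‖, hyn.le, ‖y‖⁻¹ • y, ⟨?_, ?_⟩, ?_⟩
    · exact PointedCone.smul_mem P (inv_nonneg.2 hyn.le) hy
    · simp [norm_smul, hyn.ne']
    · rw [hgx, smul_smul, mul_inv_cancel₀ hyn.ne', one_smul]

end Pool.Agent.Lib.Pad47bbM
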