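import Pool.Agent.Lib.Pad47bb.Basic

/-!
Minimal points, the relative cone statement, local rational polyhedrality.
-/

open Set Topology

namespace Pool.Agent.Lib.Pad47bbM

open Pool.Agent.Lib.Pad47bb

variable {V : Type*} [NormedAddCommGroup V] [NormedSpace ℝ V]

/-- `D` has the least value of `f` in its `Γ`-orbit. -/
def IsMinimal (Γ : Subgroup (V ≃ₗ[ℝ] V)) (f : V →L[ℝ] ℝ) (D : V) : Prop :=
  ∀ g ∈ Γ, f D ≤ f (g D)

/-- The pointwise stabilizer of `J` in `Γ`. -/
def fixer (Γ : Subgroup (V ≃ₗ[ℝ] V)) (J : Finset V) : Subgroup (V ≃ₗ[ℝ] V) where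
  carrier := {g | g ∈ Γ ∧ ∀ p ∈ J, g p = p}
  mul_mem' := by
    rintro a b ⟨ha, ha'⟩ ⟨hb, hb'⟩
    refine ⟨mul_mem ha hb, fun p hp => ?_⟩
    show a (b p) = p
    rw [hb' p hp, ha' p hp]
  one_mem' := ⟨one_mem Γ, fun _ _ => rfl⟩
  inv_mem' := by
    rintro a ⟨ha, ha'⟩
    refine ⟨inv_mem ha, fun p hp => ?_⟩
    have h1 : a⁻¹ (a p) = p := a.symm_apply_apply p
    rwa [ha' p hp] at h1

/-- The relative cone statement for `J`: there is a finite set `Y` of lattice points of `N ∩ E` such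
that every point `x` of the interior of `N` is moved into `cone Y + span J` by an element of `Γ`
fixing `J` pointwise. -/
def RelCone (L : Submodule ℤ V) (N E : PointedCone ℝ V) (Γ : Subgroup (V ≃ₗ[ℝ] V))
    (J : Finset V) : Prop :=
  ∃ Y : Finset V, (∀ p ∈ Y, p ∈ L ∧ p ∈ N ∧ p ∈ E) ∧
    ∀ x ∈ interior (N : Set V), ∃ a ∈ fixer Γ J, ∃ y ∈ PointedCone.hull ℝ (Y : Set V),
      a x - y ∈ Submodule.span ℝ (J : Set V)

/-- The cone generated by the lattice points of `N ∩ E`. -/
def latCone (L : Submodule ℤ V) (N E : PointedCone ℝ V) : PointedCone ℝ V :=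
  PointedCone.hull ℝ {p : V | p ∈ L ∧ p ∈ N ∧ p ∈ E}

/-- The non-vanishing statement for `J` relative to the group `H`: with `R` the set of all points of
`N` which are minimal for `H`, the closure of `R + span J` is contained in `C + span J`, where `C` is
the cone generated by the lattice points of `N ∩ E`. -/
def NonVan (L : Submodule ℤ V) (N E : PointedCone ℝ V) (H : Subgroup (V ≃ₗ[ℝ] V))
    (f : V →L[ℝ] ℝ) (J : Finset V) : Prop :=
  closure {x : V | ∃ r ∈ N, IsMinimal H f r ∧ x - r ∈ Submodule.span ℝ (J : Set V)} ⊆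
    {x : V | ∃ c ∈ latCone L N E, x - c ∈ Submodule.span ℝ (J : Set V)}

/-- `N` is locally rational polyhedral at `q`: it coincides with a rational polyhedral cone in a
neighbourhood of `q`. -/
def IsLocRatPoly (L : Submodule ℤ V) (N : PointedCone ℝ V) (q : V) : Prop :=
  ∃ P : PointedCone ℝ V, IsRatPoly L P ∧ ∃ U ∈ 𝓝 q, U ∩ (N : Set V) = U ∩ (P : Set V)

end Pool.Agent.Lib.Pad47bbM
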