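import Pool.Agent.Lib.Pad47bbM.Defs
import Pool.Agent.Lib.Pad47bbQ.Closing

/-!
Points of minimal value in their orbit, for an arbitrary (real) functional positive on the cone.
-/

open Set Topology

namespace Pool.Agent.Lib.Pad47bbM

open Pool.Agent.Lib.Pad47bb Pool.Agent.Lib.Pad47bbQ

variable {V : Type*} [NormedAddCommGroup V] [NormedSpace ℝ V]

theorem IsMinimal.add {Γ : Subgroup (V ≃ₗ[ℝ] V)} {f : V →L[ℝ] ℝ} {x y : V}
    (hx : IsMinimal Γ f x) (hy : IsMinimal Γ f y) : IsMinimal Γ f (x + y) := by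
  intro g hg
  rw [map_add, map_add, map_add]
  exact add_le_add (hx g hg) (hy g hg)

theorem IsMinimal.smul {Γ : Subgroup (V ≃ₗ[ℝ] V)} {f : V →L[ℝ] ℝ} {x : V}
    (hx : IsMinimal Γ f x) {c : ℝ} (hc : 0 ≤ c) : IsMinimal Γ f (c • x) := by
  intro g hg
  rw [map_smul, map_smul, map_smul, smul_eq_mul, smul_eq_mul]
  exact mul_le_mul_of_nonneg_left (hx g hg) hc

theorem isClosed_isMinimal [FiniteDimensional ℝ V] (Γ : Subgroup (V ≃ₗ[ℝ] V)) (f : V →L[ℝ] ℝ) :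
    IsClosed {x : V | IsMinimal Γ f x} := by
  have h1 : {x : V | IsMinimal Γ f x} = ⋂ g ∈ Γ, {x : V | f x ≤ f (g x)} := by
    ext x
    simp only [mem_iInter]
    rfl
  rw [h1]
  refine isClosed_biInter fun g _ => isClosed_le f.continuous ?_
  exact f.continuous.comp g.toContinuousLinearEquiv.continuous

variable [FiniteDimensional ℝ V] {L : Submodule ℤ V} [DiscreteTopology L]

/-- Dickson's lemma for the values of a functional on the orbit of finitely many lattice points. -/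
theorem dicksonR (K : PointedCone ℝ V) (s : Finset V) (Γ : Set (V ≃ₗ[ℝ] V)) (hΓ : Γ.Nonempty)
    (f : V →L[ℝ] ℝ) (hpos : ∀ x ∈ closure (K : Set V), x ≠ 0 → 0 < f x)
    (hs : ∀ g ∈ Γ, ∀ a ∈ s, g a ∈ L ∧ g a ∈ K) :
    ∃ Φ : Finset (V ≃ₗ[ℝ] V), (Φ : Set (V ≃ₗ[ℝ] V)) ⊆ Γ ∧ Φ.Nonempty ∧
      ∀ g ∈ Γ, ∃ φ ∈ Φ, ∀ x ∈ PointedCone.hull ℝ (s : Set V), f (φ x) ≤ f (g x) := by
  classical
  have hfin : ∀ c : ℝ, {x : V | x ∈ L ∧ x ∈ K ∧ f x ≤ c}.Finite := finite_points (L := L) f hpos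
  have hfin' : ∀ c : ℝ, (f '' {x : V | x ∈ L ∧ x ∈ K ∧ f x < c}).Finite := fun c =>
    ((hfin c).subset fun x hx => ⟨hx.1, hx.2.1, hx.2.2.le⟩).image f
  let rk : ℝ → ℕ := fun c => (f '' {x : V | x ∈ L ∧ x ∈ K ∧ f x < c}).ncard
  have hrk : ∀ x y : V, y ∈ L → y ∈ K → rk (f x) ≤ rk (f y) → f x ≤ f y := by
    intro x y hyL hyK hle
    by_contra hlt
    rw [not_le] at hlt
    have h1 : insert (f y) (f '' {z : V | z ∈ L ∧ z ∈ K ∧ f z < f y}) ⊆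
        f '' {z : V | z ∈ L ∧ z ∈ K ∧ f z < f x} := by
      intro c hc
      rcases hc with rfl | ⟨z, ⟨hz1, hz2, hz3⟩, rfl⟩
      · exact ⟨y, ⟨hyL, hyK, hlt⟩, rfl⟩
      · exact ⟨z, ⟨hz1, hz2, hz3.trans hlt⟩, rfl⟩
    have h2 := Set.ncard_le_ncard h1 (hfin' (f x))
    rw [Set.ncard_insert_of_notMem ?_ (hfin' (f y))] at h2
    · have h3 : rk (f y) + 1 ≤ rk (f x) := h2
      omega
    · rintro ⟨z, ⟨-, -, hz⟩, hzy⟩
      exact hz.ne hzy
  -- vectors of values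
  let W : (V ≃ₗ[ℝ] V) → (s → ℕ) := fun g a => rk (f (g a))
  let T : Set (s → ℕ) := W '' Γ
  let M : Set (s → ℕ) := {m | Minimal (· ∈ T) m}
  have hMfin : M.Finite := by
    apply WellQuasiOrderedLE.finite_of_isAntichain
    intro a ha b hb hab hle
    exact hab (le_antisymm hle (hb.le_of_le ha.prop hle))
  have hMT : ∀ m ∈ M, ∃ g ∈ Γ, W g = m := fun m hm => hm.prop
  choose! γ hγ hγW using hMT
  refine ⟨hMfin.toFinset.image γ, ?_, ?_, ?_⟩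
  · intro g hg
    obtain ⟨m, hm, rfl⟩ := Finset.mem_image.1 hg
    exact hγ m (hMfin.mem_toFinset.1 hm)
  · obtain ⟨g, hg⟩ := hΓ
    obtain ⟨m, hm, hmin⟩ := exists_minimal_le_of_wellFoundedLT (· ∈ T) (W g) ⟨g, hg, rfl⟩
    exact ⟨γ m, Finset.mem_image_of_mem _ (hMfin.mem_toFinset.2 hmin)⟩
  · intro g hg
    obtain ⟨m, hm, hmin⟩ := exists_minimal_le_of_wellFoundedLT (· ∈ T) (W g) ⟨g, hg, rfl⟩
    refine ⟨γ m, Finset.mem_image_of_mem _ (hMfin.mem_toFinset.2 hmin), ?_⟩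
    intro x hx
    obtain ⟨c, hc, rfl⟩ := mem_hull_finset.1 hx
    simp only [map_sum, map_smul, smul_eq_mul]
    refine Finset.sum_le_sum fun a ha => mul_le_mul_of_nonneg_left ?_ (hc a ha)
    have h1 : W (γ m) ⟨a, ha⟩ = m ⟨a, ha⟩ := congrFun (hγW m hmin) _
    have h2 : m ⟨a, ha⟩ ≤ W g ⟨a, ha⟩ := hm _
    exact hrk _ _ (hs g hg a ha).1 (hs g hg a ha).2 (h1.trans_le h2)

variable [IsZLattice ℝ L]

/-- Only finitely many elements of `Γ` move an interior point of `K` in a rational polyhedral cone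
`P ⊆ K` to a minimal point. -/
theorem finite_minimizersR {K : PointedCone ℝ V} {Γ : Subgroup (V ≃ₗ[ℝ] V)} (S : Setting L K Γ)
    (s : Finset V) (hsL : (s : Set V) ⊆ L) (hsK : (s : Set V) ⊆ K) (f : V →L[ℝ] ℝ)
    (hf : ∀ x ∈ closure (K : Set V), x ≠ 0 → 0 < f x) :
    {γ : V ≃ₗ[ℝ] V | γ ∈ Γ ∧ ∃ z ∈ PointedCone.hull ℝ (s : Set V), z ∈ interior (K : Set V) ∧
      IsMinimal Γ f (γ z)}.Finite := by
  classical
  obtain ⟨Φ, hΦΓ, hΦne, hΦ⟩ := dicksonR (L := L) K s (Γ : Set (V ≃ₗ[ℝ] V)) ⟨1, one_mem Γ⟩ f hf (by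
    intro g hg a ha
    exact ⟨S.map_lattice g hg a (hsL ha), S.map_cone g hg a (hsK ha)⟩)
  have hfin : (⋃ φ ∈ (Φ : Set (V ≃ₗ[ℝ] V)), ⋃ F ∈ {F | F ∈ s.powerset ∧
      ∑ a ∈ F, a ∈ interior (K : Set V)}, {γ : V ≃ₗ[ℝ] V | γ ∈ (Γ : Set (V ≃ₗ[ℝ] V)) ∧
        f (γ (∑ a ∈ F, a)) ≤ f (φ (∑ a ∈ F, a))}).Finite := by
    refine (Φ.finite_toSet).biUnion fun φ _ => ?_
    refine Set.Finite.biUnion ((s.powerset.finite_toSet).subset fun F hF => hF.1) fun F hF => ?_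
    exact finite_le L K (Γ : Set (V ≃ₗ[ℝ] V)) S.map_lattice S.map_cone f hf _ hF.2 _
  refine hfin.subset ?_
  rintro γ ⟨hγ, z, hz, hzint, hmin⟩
  obtain ⟨φ, hφ, hle⟩ := hΦ γ hγ
  obtain ⟨c, hc, hzc⟩ := mem_hull_finset.1 hz
  have hmin' : f (γ z) ≤ f (φ z) := by
    have h1 := hmin (φ * γ⁻¹) (mul_mem (hΦΓ hφ) (inv_mem hγ))
    have h2 : (φ * γ⁻¹) (γ z) = φ z := by
      show φ (γ⁻¹ (γ z)) = φ z
      congr 1
      exact γ.symm_apply_apply z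
    rwa [h2] at h1
  have heq : f (γ z) = f (φ z) := le_antisymm hmin' (hle z hz)
  set F := s.filter fun a => 0 < c a with hF
  have hFs : F ⊆ s := Finset.filter_subset _ _
  have hzF : z = ∑ a ∈ F, c a • a := by
    rw [hzc, hF, Finset.sum_filter]
    refine Finset.sum_congr rfl fun a ha => ?_
    by_cases h : 0 < c a
    · rw [if_pos h]
    · rw [if_neg h, le_antisymm (not_lt.1 h) (hc a ha), zero_smul]
  have hcpos : ∀ a ∈ F, 0 < c a := fun a ha => (Finset.mem_filter.1 ha).2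
  have hFint : ∑ a ∈ F, a ∈ interior (K : Set V) :=
    sum_interior (fun a ha => hsK (hFs ha)) hcpos (by rw [← hzF]; exact hzint)
  have hterm : ∀ a ∈ F, 0 ≤ c a * (f (γ a) - f (φ a)) := fun a ha =>
    mul_nonneg (hcpos a ha).le (sub_nonneg.2 (hle a (Submodule.subset_span (hFs ha))))
  have hsum0 : ∑ a ∈ F, c a * (f (γ a) - f (φ a)) = 0 := by
    have e1 : f (γ z) = ∑ a ∈ F, c a * f (γ a) := by rw [hzF]; simp [map_sum]
    have e2 : f (φ z) = ∑ a ∈ F, c a * f (φ a) := by rw [hzF]; simp [map_sum]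
    have e3 : ∑ a ∈ F, c a * (f (γ a) - f (φ a))
        = ∑ a ∈ F, c a * f (γ a) - ∑ a ∈ F, c a * f (φ a) := by
      rw [← Finset.sum_sub_distrib]
      exact Finset.sum_congr rfl fun a _ => by ring
    rw [e3, ← e1, ← e2, heq, sub_self]
  have heach := (Finset.sum_eq_zero_iff_of_nonneg hterm).1 hsum0
  have hea : ∀ a ∈ F, f (γ a) = f (φ a) := by
    intro a ha
    rcases mul_eq_zero.1 (heach a ha) with h | h
    · exact absurd h (hcpos a ha).ne'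
    · linarith
  refine mem_biUnion (x := φ) hφ (mem_biUnion (x := F) ⟨Finset.mem_powerset.2 hFs, hFint⟩ ⟨hγ, ?_⟩)
  have e4 : f (γ (∑ a ∈ F, a)) = f (φ (∑ a ∈ F, a)) := by
    rw [map_sum, map_sum, map_sum, map_sum]
    exact Finset.sum_congr rfl hea
  exact e4.le

/-- The orbit of an interior point of `K` contains a minimal point. -/
theorem exists_isMinimal {K : PointedCone ℝ V} {Γ : Subgroup (V ≃ₗ[ℝ] V)} (S : Setting L K Γ)
    (f : V →L[ℝ] ℝ) (hf : ∀ x ∈ closure (K : Set V), x ≠ 0 → 0 < f x) {x : V}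
    (hx : x ∈ interior (K : Set V)) : ∃ g ∈ Γ, IsMinimal Γ f (g x) := by
  have hfin := finite_le L K (Γ : Set (V ≃ₗ[ℝ] V)) S.map_lattice S.map_cone f hf x hx (f x)
  obtain ⟨g, ⟨hg, hgx⟩, hmin⟩ := hfin.exists_minimalFor (fun g : V ≃ₗ[ℝ] V => f (g x)) _
    ⟨1, one_mem Γ, le_refl _⟩
  refine ⟨g, hg, fun h hh => ?_⟩
  rcases le_total (f (g x)) (f ((h * g) x)) with h1 | h1
  · exact h1
  · exact hmin (j := h * g) ⟨mul_mem hh hg, h1.trans hgx⟩ h1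

omit [IsZLattice ℝ L] in
/-- The orbit of a lattice point of `K` contains a minimal point. -/
theorem exists_isMinimal_lattice {K : PointedCone ℝ V} {Γ : Subgroup (V ≃ₗ[ℝ] V)}
    (S : Setting L K Γ)
    (f : V →L[ℝ] ℝ) (hf : ∀ x ∈ closure (K : Set V), x ≠ 0 → 0 < f x) {x : V}
    (hxL : x ∈ L) (hx : x ∈ K) : ∃ g ∈ Γ, IsMinimal Γ f (g x) := by
  have hfin : {y : V | (∃ g ∈ Γ, g x = y) ∧ f y ≤ f x}.Finite := by
    refine (finite_points (L := L) (K := K) f hf (f x)).subset ?_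
    rintro _ ⟨⟨g, hg, rfl⟩, hle⟩
    exact ⟨S.map_lattice g hg x hxL, S.map_cone g hg x hx, hle⟩
  obtain ⟨y, ⟨⟨g, hg, hgx⟩, hy⟩, hmin⟩ := hfin.exists_minimalFor (fun y : V => f y) _
    ⟨x, ⟨1, one_mem Γ, rfl⟩, le_refl _⟩
  subst hgx
  refine ⟨g, hg, fun h hh => ?_⟩
  rcases le_total (f (g x)) (f (h (g x))) with h1 | h1
  · exact h1
  · exact hmin (j := h (g x)) ⟨⟨h * g, mul_mem hh hg, rfl⟩, h1.trans hy⟩ h1

end Pool.Agent.Lib.Pad47bbM
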