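import Pool.Agent.Lib.Pad47bbQ.Closing

/-!
A closed convex cone without lines is generated by its extremal rays (Minkowski).
-/

open Set Topology

namespace Pool.Agent.Lib.Pad47bbM

open Pool.Agent.Lib.Pad47bb Pool.Agent.Lib.Pad47bbQ

variable {V : Type*} [NormedAddCommGroup V] [NormedSpace ℝ V]

/-- `D` spans an extremal ray of the cone `K`. -/
def IsExtremal (K : Set V) (D : V) : Prop :=
  D ∈ K ∧ D ≠ 0 ∧ ∀ x ∈ K, ∀ y ∈ K, x + y = D → ∃ c : ℝ, x = c • D

/-- A supporting functional at a boundary point of a convex cone which does not vanish on the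
cone. -/
theorem exists_support [FiniteDimensional ℝ V] (K : PointedCone ℝ V) {z v : V} (hz : z ∈ K)
    (hv : v ∈ K) (h : ∀ ε : ℝ, 0 < ε → z - ε • v ∉ K) :
    ∃ ξ : V →L[ℝ] ℝ, (∀ x ∈ K, 0 ≤ ξ x) ∧ ξ z = 0 ∧ ∃ w ∈ K, ξ w ≠ 0 := by
  classical
  set W : Submodule ℝ V := Submodule.span ℝ (K : Set V) with hW
  have hKW : ∀ x ∈ K, x ∈ W := fun x hx => Submodule.subset_span hx
  let C : Set W := {w : W | (w : V) ∈ K}
  have hCconv : Convex ℝ C := by
    intro x hx y hy a b ha hb _
    show ((a • x + b • y : W) : V) ∈ K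
    rw [Submodule.coe_add, Submodule.coe_smul, Submodule.coe_smul]
    exact K.add_mem (PointedCone.smul_mem K ha hx) (PointedCone.smul_mem K hb hy)
  have hspan : Submodule.span ℝ C = ⊤ := by
    rw [eq_top_iff]
    rintro ⟨w, hw⟩ -
    have hmap : (Submodule.span ℝ C).map W.subtype = Submodule.span ℝ (K : Set V) := by
      rw [Submodule.map_span]
      congr 1
      ext x
      constructor
      · rintro ⟨y, hy, rfl⟩
        exact hy
      · intro hx
        exact ⟨⟨x, hKW x hx⟩, hx, rfl⟩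
    have hw' : w ∈ (Submodule.span ℝ C).map W.subtype := by rw [hmap]; exact hw
    obtain ⟨y, hy, hyw⟩ := hw'
    have : y = ⟨w, hw⟩ := Subtype.ext hyw
    rw [← this]
    exact hy
  have haff : affineSpan ℝ C = ⊤ := by
    have h0 : (0 : W) ∈ C := K.zero_mem
    have h1 := affineSpan_insert_zero (k := ℝ) C
    rw [insert_eq_of_mem h0, hspan] at h1
    ext w
    rw [← SetLike.mem_coe, h1]
    simp
  have hne : (interior C).Nonempty := hCconv.interior_nonempty_iff_affineSpan_eq_top.2 haff
  have hzC : (⟨z, hKW z hz⟩ : W) ∉ interior C := by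
    intro hzi
    obtain ⟨r, hr, hball⟩ := Metric.isOpen_iff.1 isOpen_interior _ hzi
    set t : ℝ := r / (2 * (‖v‖ + 1)) with ht
    have ht0 : 0 < t := by positivity
    have hmem : (⟨z, hKW z hz⟩ : W) - t • (⟨v, hKW v hv⟩ : W) ∈ interior C := by
      apply hball
      rw [Metric.mem_ball, dist_eq_norm, sub_sub_cancel_left, norm_neg, norm_smul,
        Real.norm_of_nonneg ht0.le]
      show t * ‖v‖ < r
      rw [ht, div_mul_eq_mul_div, div_lt_iff₀ (by positivity)]
      nlinarith [norm_nonneg v]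
    have hmem' : (⟨z, hKW z hz⟩ : W) - t • (⟨v, hKW v hv⟩ : W) ∈ C := interior_subset hmem
    exact h t ht0 hmem'
  obtain ⟨η, hη⟩ := geometric_hahn_banach_open_point hCconv.interior isOpen_interior hzC
  -- `η < η z` on the interior
  have hcl : C ⊆ closure (interior C) := by
    rw [hCconv.closure_interior_eq_closure_of_nonempty_interior hne]
    exact subset_closure
  have hle : ∀ x ∈ C, η x ≤ η ⟨z, hKW z hz⟩ := by
    intro x hx
    exact closure_minimal (fun y hy => (hη y hy).le)
      (isClosed_le η.continuous continuous_const) (hcl hx)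
  have hzero : η ⟨z, hKW z hz⟩ = 0 := by
    have h1 := hle 0 K.zero_mem
    rw [map_zero] at h1
    have h2 := hle ((2 : ℝ) • ⟨z, hKW z hz⟩) (by
      show ((2 : ℝ) • z) ∈ K
      exact PointedCone.smul_mem K (by norm_num) hz)
    rw [map_smul, smul_eq_mul] at h2
    linarith
  obtain ⟨ξ₀, hξ₀⟩ := LinearMap.exists_extend ((-η : W →L[ℝ] ℝ) : W →ₗ[ℝ] ℝ)
  have hξ₀' : ∀ w : W, ξ₀ (w : V) = -η w := fun w => by
    have := LinearMap.congr_fun hξ₀ w
    simpa using this
  refine ⟨LinearMap.toContinuousLinearMap ξ₀, ?_, ?_, ?_⟩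
  · intro x hx
    show 0 ≤ ξ₀ x
    rw [hξ₀' ⟨x, hKW x hx⟩]
    have := hle ⟨x, hKW x hx⟩ hx
    rw [hzero] at this
    linarith
  · show ξ₀ z = 0
    rw [hξ₀' ⟨z, hKW z hz⟩, hzero, neg_zero]
  · obtain ⟨w, hw⟩ := hne
    refine ⟨(w : V), (interior_subset hw : w ∈ C), ?_⟩
    show ξ₀ (w : V) ≠ 0
    rw [hξ₀' w]
    have := hη w hw
    rw [hzero] at this
    linarith

theorem IsExtremal.of_face {K : PointedCone ℝ V} {ξ : V →L[ℝ] ℝ} (hξ : ∀ x ∈ K, 0 ≤ ξ x) {D : V}
    (hD : IsExtremal {x : V | x ∈ K ∧ ξ x = 0} D) : IsExtremal (K : Set V) D := by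
  obtain ⟨⟨hDK, hDξ⟩, hD0, h⟩ := hD
  refine ⟨hDK, hD0, fun x hx y hy hxy => ?_⟩
  have h1 : ξ x + ξ y = 0 := by rw [← map_add, hxy, hDξ]
  have h2 := hξ x hx
  have h3 := hξ y hy
  exact h x ⟨hx, by linarith⟩ y ⟨hy, by linarith⟩ hxy

/-- The largest multiple of `y` that can be subtracted from `x` inside a closed cone. -/
theorem exists_max_sub {K : PointedCone ℝ V} (hK : IsClosed (K : Set V)) {f : V →L[ℝ] ℝ}
    (hf : ∀ x ∈ K, x ≠ 0 → 0 < f x) {x y : V} (hx : x ∈ K) (hy : y ∈ K) (hy0 : y ≠ 0) :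
    ∃ t : ℝ, 0 ≤ t ∧ x - t • y ∈ K ∧ ∀ ε : ℝ, 0 < ε → x - t • y - ε • y ∉ K := by
  have hfy := hf y hy hy0
  set S : Set ℝ := {t : ℝ | 0 ≤ t ∧ x - t • y ∈ K} with hS
  have hSne : S.Nonempty := ⟨0, le_refl _, by simpa using hx⟩
  have hScl : IsClosed S := by
    refine (isClosed_le continuous_const continuous_id).inter ?_
    exact hK.preimage (continuous_const.sub (continuous_id.smul continuous_const))
  have hSbdd : BddAbove S := by
    refine ⟨f x / f y, ?_⟩
    rintro t ⟨_, ht⟩
    have h1 : 0 ≤ f (x - t • y) := by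
      by_cases h0 : x - t • y = 0
      · rw [h0, map_zero]
      · exact (hf _ ht h0).le
    rw [map_sub, map_smul, smul_eq_mul] at h1
    rw [le_div_iff₀ hfy]
    linarith
  have hmem := hScl.csSup_mem hSne hSbdd
  refine ⟨sSup S, hmem.1, hmem.2, fun ε hε hcon => ?_⟩
  have h1 : sSup S + ε ∈ S := by
    refine ⟨by linarith [hmem.1], ?_⟩
    have e : x - (sSup S + ε) • y = x - sSup S • y - ε • y := by module
    rw [e]
    exact hcon
  have := le_csSup hSbdd h1
  linarith

/-- Minkowski: a closed convex cone on which some functional is positive away from `0` is generated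
by its extremal rays. -/
theorem minkowski [FiniteDimensional ℝ V] {f : V →L[ℝ] ℝ} : ∀ (n : ℕ) (K : PointedCone ℝ V),
    IsClosed (K : Set V) → (∀ x ∈ K, x ≠ 0 → 0 < f x) →
    Module.finrank ℝ (Submodule.span ℝ (K : Set V)) ≤ n →
    ∀ x ∈ K, x ∈ PointedCone.hull ℝ {y : V | IsExtremal (K : Set V) y} := by
  classical
  intro n
  induction n with
  | zero =>
    intro K _ _ hn x hx
    have h1 : Submodule.span ℝ (K : Set V) = ⊥ := Submodule.finrank_eq_zero.1 (by omega)
    have h2 : x ∈ Submodule.span ℝ (K : Set V) := Submodule.subset_span hx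
    rw [h1, Submodule.mem_bot] at h2
    rw [h2]
    exact Submodule.zero_mem _
  | succ n ih =>
    intro K hK hf hn x hx
    -- boundary points are generated by extremal rays
    have key : ∀ z ∈ K, ∀ v ∈ K, (∀ ε : ℝ, 0 < ε → z - ε • v ∉ K) →
        z ∈ PointedCone.hull ℝ {y : V | IsExtremal (K : Set V) y} := by
      intro z hz v hv h
      obtain ⟨ξ, hξ, hξz, w, hw, hξw⟩ := exists_support K hz hv h
      let F : PointedCone ℝ V :=
        { carrier := {x : V | x ∈ K ∧ ξ x = 0}
          add_mem' := by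
            rintro a b ⟨ha, ha'⟩ ⟨hb, hb'⟩
            exact ⟨K.add_mem ha hb, by rw [map_add, ha', hb', add_zero]⟩
          zero_mem' := ⟨K.zero_mem, map_zero ξ⟩
          smul_mem' := by
            rintro c a ⟨ha, ha'⟩
            refine ⟨Submodule.smul_mem K c ha, ?_⟩
            have : ξ ((c : ℝ) • a) = (c : ℝ) • ξ a := map_smul ξ _ _
            show ξ ((c : ℝ) • a) = 0
            rw [this, ha', smul_zero] }
      have hFK : (F : Set V) = {x : V | x ∈ K ∧ ξ x = 0} := rfl
      have hFcl : IsClosed (F : Set V) := hK.inter (isClosed_eq ξ.continuous continuous_const)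
      have hlt : Submodule.span ℝ (F : Set V) < Submodule.span ℝ (K : Set V) := by
        refine lt_of_le_of_ne (Submodule.span_mono fun a ha => ha.1) ?_
        intro heq
        have h1 : w ∈ Submodule.span ℝ (F : Set V) := by
          rw [heq]; exact Submodule.subset_span hw
        have h2 : Submodule.span ℝ (F : Set V) ≤ LinearMap.ker (ξ : V →ₗ[ℝ] ℝ) := by
          refine Submodule.span_le.2 fun a ha => ?_
          exact ha.2
        exact hξw (h2 h1)
      have hrank := Submodule.finrank_lt_finrank_of_lt hlt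
      have h3 := ih F hFcl (fun a ha => hf a ha.1) (by omega) z ⟨hz, hξz⟩
      refine Submodule.span_mono ?_ h3
      intro y hy
      rw [hFK] at hy
      exact IsExtremal.of_face hξ hy
    by_cases hx0 : x = 0
    · rw [hx0]; exact Submodule.zero_mem _
    by_cases hmul : ∀ y ∈ K, ∃ c : ℝ, y = c • x
    · refine Submodule.subset_span ⟨hx, hx0, fun a ha b _ _ => hmul a ha⟩
    · push Not at hmul
      obtain ⟨y₀, hy₀, hy₀c⟩ := hmul
      obtain ⟨s, hs, hsK, hsmax⟩ := exists_max_sub hK hf hy₀ hx hx0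
      set y := y₀ - s • x with hy
      have hyne : y ≠ 0 := by
        intro h0
        exact hy₀c s (by rw [← sub_eq_zero]; exact h0)
      obtain ⟨t, ht, htK, htmax⟩ := exists_max_sub hK hf hx hsK hyne
      have h1 := key y hsK x hx hsmax
      have h2 := key (x - t • y) htK y hsK htmax
      have h3 := Submodule.add_mem _ h2 (PointedCone.smul_mem _ ht h1)
      rwa [sub_add_cancel] at h3

/-- Every point of a closed convex cone without lines is a sum of points on extremal rays. -/
theorem mem_hull_extremal [FiniteDimensional ℝ V] {f : V →L[ℝ] ℝ} {K : PointedCone ℝ V}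
    (hK : IsClosed (K : Set V)) (hf : ∀ x ∈ K, x ≠ 0 → 0 < f x) {x : V} (hx : x ∈ K) :
    x ∈ PointedCone.hull ℝ {y : V | IsExtremal (K : Set V) y} :=
  minkowski _ K hK hf le_rfl x hx

end Pool.Agent.Lib.Pad47bbM
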