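import Pool.Agent.Lib.Pad47bbM.Van
import Pool.Agent.Lib.Pad47bbM.Mink

/-!
The cone of minimal points: it is rational polyhedral if there is a rational polyhedral fundamental
domain and the functional is integral; its extremal rays.
-/

open Set Topology

namespace Pool.Agent.Lib.Pad47bbM

open Pool.Agent.Lib.Pad47bb Pool.Agent.Lib.Pad47bbQ

variable {V : Type*} [NormedAddCommGroup V] [NormedSpace ℝ V]

/-- the points of `N` which are minimal for `Γ` -/
def minCone (N : PointedCone ℝ V) (Γ : Subgroup (V ≃ₗ[ℝ] V)) (f : V →L[ℝ] ℝ) :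
    PointedCone ℝ V where
  carrier := {x : V | x ∈ N ∧ IsMinimal Γ f x}
  add_mem' := by
    rintro a b ⟨ha, ha'⟩ ⟨hb, hb'⟩
    exact ⟨N.add_mem ha hb, ha'.add hb'⟩
  zero_mem' := ⟨N.zero_mem, fun g _ => by rw [map_zero, map_zero, map_zero]⟩
  smul_mem' := by
    rintro c a ⟨ha, ha'⟩
    exact ⟨Submodule.smul_mem N c ha, ha'.smul c.2⟩

theorem coe_minCone (N : PointedCone ℝ V) (Γ : Subgroup (V ≃ₗ[ℝ] V)) (f : V →L[ℝ] ℝ) :
    (minCone N Γ f : Set V) = {x : V | x ∈ N ∧ IsMinimal Γ f x} := rfl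

theorem mem_minCone {N : PointedCone ℝ V} {Γ : Subgroup (V ≃ₗ[ℝ] V)} {f : V →L[ℝ] ℝ} {x : V} :
    x ∈ minCone N Γ f ↔ x ∈ N ∧ IsMinimal Γ f x := Iff.rfl

variable [FiniteDimensional ℝ V] {L : Submodule ℤ V} {N E : PointedCone ℝ V}
  {Γ : Subgroup (V ≃ₗ[ℝ] V)}

theorem isClosed_minCone (hN : IsClosed (N : Set V)) (f : V →L[ℝ] ℝ) :
    IsClosed (minCone N Γ f : Set V) := hN.inter (isClosed_isMinimal Γ f)

variable [DiscreteTopology L] [IsZLattice ℝ L]

/-- The part of the cone of minimal points inside a rational polyhedral cone is rational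
polyhedral. -/
theorem isRatPoly_inf_minCone (T : Data L N E Γ) (f : V →L[ℝ] ℝ)
    (hf : ∀ x ∈ N, x ≠ 0 → 0 < f x) (hfL : ∀ x ∈ L, ∃ n : ℤ, f x = n) {P : PointedCone ℝ V}
    (hP : IsRatPoly L P) (hPN : P ≤ N) : IsRatPoly L (P ⊓ minCone N Γ f) := by
  classical
  obtain ⟨s, hsL, hsP⟩ := id hP
  have hf' : ∀ x ∈ closure (N : Set V), x ≠ 0 → 0 < f x := by
    rw [T.closed.closure_eq]
    exact hf
  have hsN : ∀ a ∈ s, a ∈ N := fun a ha => hPN (by rw [hsP]; exact Submodule.subset_span ha)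
  obtain ⟨Φ, hΦΓ, -, hΦ⟩ := dicksonR (L := L) N s (Γ : Set (V ≃ₗ[ℝ] V)) ⟨1, one_mem Γ⟩ f hf' (by
    intro g hg a ha
    exact ⟨T.map_lattice g hg a (hsL ha), T.map_N g hg a (hsN a ha)⟩)
  have h1 := hP.inf_halfSpaces Φ
    (fun φ => f.comp (LinearMap.toContinuousLinearMap (φ : V →ₗ[ℝ] V)) - f) (by
      intro φ hφ x hx
      obtain ⟨m, hm⟩ := hfL _ (T.map_lattice φ (hΦΓ hφ) x hx)
      obtain ⟨n, hn⟩ := hfL x hx
      refine ⟨m - n, ?_⟩
      show f (φ x) - f x = ((m - n : ℤ) : ℝ)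
      rw [hm, hn]
      push_cast
      ring)
  have h2 : P ⊓ ⨅ i ∈ Φ, halfSpace (f.comp (LinearMap.toContinuousLinearMap (i : V →ₗ[ℝ] V)) - f)
      = P ⊓ minCone N Γ f := by
    ext x
    simp only [Submodule.mem_inf, Submodule.mem_iInf, mem_halfSpace, mem_minCone]
    constructor
    · rintro ⟨hx, h⟩
      refine ⟨hx, hPN hx, fun g hg => ?_⟩
      obtain ⟨φ, hφ, hle⟩ := hΦ g hg
      have h3 := h φ hφ
      have h4 : (0 : ℝ) ≤ f (φ x) - f x := h3
      have h5 := hle x (by rw [← hsP]; exact hx)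
      linarith
    · rintro ⟨hx, -, h⟩
      refine ⟨hx, fun φ hφ => ?_⟩
      show (0 : ℝ) ≤ f (φ x) - f x
      have := h φ (hΦΓ hφ)
      linarith
  rwa [h2] at h1

/-- If there is a rational polyhedral fundamental domain and `f` is integral, then the cone of
minimal points is rational polyhedral. -/
theorem Data.isRatPoly_minCone (T : Data L N E Γ) (f : V →L[ℝ] ℝ)
    (hf : ∀ x ∈ N, x ≠ 0 → 0 < f x) (hfL : ∀ x ∈ L, ∃ n : ℤ, f x = n)
    (h : HasRPFD L Γ (N ⊓ E)) :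
    IsRatPoly L (minCone N Γ f) ∧ minCone N Γ f ≤ N ⊓ E := by
  classical
  have hf' : ∀ x ∈ closure (N : Set V), x ≠ 0 → 0 < f x := by
    rw [T.closed.closure_eq]
    exact hf
  obtain ⟨P, hP, hPcov, -⟩ := h
  obtain ⟨s, hsL, hsP⟩ := id hP
  have hPNE : (P : Set V) ⊆ ((N ⊓ E : PointedCone ℝ V) : Set V) := by
    rw [hPcov]
    intro x hx
    exact mem_biUnion (one_mem Γ) ⟨x, hx, rfl⟩
  have hsN : (s : Set V) ⊆ N := by
    intro a ha
    have : a ∈ P := by rw [hsP]; exact Submodule.subset_span ha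
    exact (hPNE this).1
  have hfin := finite_minimizersR T.settingN s hsL hsN f hf'
  set Φ := hfin.toFinset with hΦ
  -- an interior minimal point
  obtain ⟨e₀, he₀⟩ := T.int_nonempty
  obtain ⟨g₀, hg₀, hmin₀⟩ := exists_isMinimal T.settingN f hf' he₀
  have hint₀ : g₀ e₀ ∈ interior (N : Set V) := interior_map_mem (T.map_N g₀ hg₀) he₀
  -- the pieces
  have hΦmem : ∀ γ ∈ Φ, γ ∈ Γ := fun γ hγ => (hfin.mem_toFinset.1 hγ).1
  have hpiece : ∀ γ ∈ Φ, imageCone γ P ≤ N ⊓ E := fun γ hγ => by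
    rintro _ ⟨y, hy, rfl⟩
    exact ⟨T.map_N γ (hΦmem γ hγ) _ (hPNE hy).1, T.map_E γ (hΦmem γ hγ) _ (hPNE hy).2⟩
  have hclosed : IsClosed (⋃ γ ∈ Φ, (imageCone γ P : Set V)) := by
    refine isClosed_biUnion_finset fun γ hγ => ?_
    obtain ⟨u, huL, hu⟩ := hP.image γ (T.map_lattice γ (hΦmem γ hγ))
    have huN : (u : Set V) ⊆ N := by
      intro a ha
      have : a ∈ imageCone γ P := by rw [hu]; exact Submodule.subset_span ha
      exact (hpiece γ hγ this).1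
    rw [hu]
    exact isClosed_hull f hf' u huN
  have hcov : ∀ x ∈ minCone N Γ f, x ∈ ⋃ γ ∈ Φ, (imageCone γ P : Set V) := by
    intro x hx
    have hseq : ∀ n : ℕ, x + (1 / ((n : ℝ) + 1)) • g₀ e₀ ∈ ⋃ γ ∈ Φ, (imageCone γ P : Set V) := by
      intro n
      have ht : (0 : ℝ) < 1 / ((n : ℝ) + 1) := by positivity
      have hxint : x + (1 / ((n : ℝ) + 1)) • g₀ e₀ ∈ interior (N : Set V) := by
        rw [add_comm]
        exact interior_add_mem (interior_smul_mem hint₀ ht) hx.1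
      have hxmin : IsMinimal Γ f (x + (1 / ((n : ℝ) + 1)) • g₀ e₀) := hx.2.add (hmin₀.smul ht.le)
      have hxNE : x + (1 / ((n : ℝ) + 1)) • g₀ e₀ ∈ ((N ⊓ E : PointedCone ℝ V) : Set V) :=
        ⟨interior_subset hxint, interior_subset (T.intN_subset hxint)⟩
      rw [hPcov] at hxNE
      simp only [mem_iUnion] at hxNE
      obtain ⟨g, hg, y, hy, hyx⟩ := hxNE
      have hyint : y ∈ interior (N : Set V) := by
        have h6 := interior_map_mem (T.map_N _ (inv_mem hg)) (by rw [hyx]; exact hxint :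
          g y ∈ interior (N : Set V))
        have h7 : g⁻¹ (g y) = y := g.symm_apply_apply y
        rwa [h7] at h6
      refine mem_biUnion (x := g) ?_ ⟨y, hy, hyx⟩
      refine Finset.mem_coe.2 (hfin.mem_toFinset.2 ⟨hg, y, ?_, hyint, ?_⟩)
      · rw [← hsP]; exact hy
      · rw [hyx]; exact hxmin
    exact hclosed.mem_of_tendsto (tendsto_add_smul x (g₀ e₀)) (Filter.Eventually.of_forall hseq)
  have hle : minCone N Γ f ≤ N ⊓ E := by
    intro x hx
    have h1 := hcov x hx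
    simp only [mem_iUnion] at h1
    obtain ⟨γ, hγ, hxγ⟩ := h1
    exact hpiece γ hγ hxγ
  have heq : minCone N Γ f = ⨆ γ ∈ Φ, (imageCone γ P ⊓ minCone N Γ f) := by
    apply le_antisymm
    · intro x hx
      have h1 := hcov x hx
      simp only [mem_iUnion] at h1
      obtain ⟨γ, hγ, hxγ⟩ := h1
      exact Submodule.mem_iSup_of_mem γ (Submodule.mem_iSup_of_mem hγ ⟨hxγ, hx⟩)
    · exact iSup₂_le fun γ _ => inf_le_right
  refine ⟨?_, hle⟩
  rw [heq]
  refine IsRatPoly.biSup Φ _ fun γ hγ => ?_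
  exact isRatPoly_inf_minCone T f hf hfL (hP.image γ (T.map_lattice γ (hΦmem γ hγ)))
    ((hpiece γ hγ).trans inf_le_left)

/-- The extremal rays of a rational polyhedral cone are spanned by lattice points. -/
theorem IsExtremal.rational {P : PointedCone ℝ V} {s : Finset V}
    (hsP : P = PointedCone.hull ℝ (s : Set V)) {f : V →L[ℝ] ℝ} (hf : ∀ x ∈ P, x ≠ 0 → 0 < f x)
    {D : V} (hD : IsExtremal (P : Set V) D) : ∃ c : ℝ, 0 < c ∧ c • D ∈ s := by
  classical
  obtain ⟨hDP, hD0, hext⟩ := hD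
  have hD' : D ∈ PointedCone.hull ℝ (s : Set V) := by rw [← hsP]; exact hDP
  obtain ⟨c, hc, hDc⟩ := mem_hull_finset.1 hD'
  obtain ⟨a, ha, ha0⟩ : ∃ a ∈ s, c a • a ≠ 0 := by
    by_contra hcon
    push Not at hcon
    exact hD0 (by rw [hDc]; exact Finset.sum_eq_zero hcon)
  have hsmem : ∀ b ∈ s, b ∈ P := fun b hb => by rw [hsP]; exact Submodule.subset_span hb
  have hca : 0 < c a := by
    refine lt_of_le_of_ne (hc a ha) ?_
    rintro h
    rw [← h, zero_smul] at ha0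
    exact ha0 rfl
  have ha1 : a ≠ 0 := fun h => ha0 (by rw [h, smul_zero])
  obtain ⟨r, hr⟩ := hext (c a • a) (PointedCone.smul_mem P hca.le (hsmem a ha))
    (∑ b ∈ s.erase a, c b • b) (P.sum_mem fun b hb => PointedCone.smul_mem P
      (hc b (Finset.mem_of_mem_erase hb)) (hsmem b (Finset.mem_of_mem_erase hb)))
    (by rw [Finset.add_sum_erase s (fun b => c b • b) ha, ← hDc])
  have h1 : 0 < f (c a • a) := hf _ (PointedCone.smul_mem P hca.le (hsmem a ha)) ha0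
  have h2 : 0 < f D := hf D hDP hD0
  have hrpos : 0 < r := by
    rw [hr, map_smul, smul_eq_mul] at h1
    exact (pos_iff_pos_of_mul_pos h1).2 h2
  refine ⟨(c a)⁻¹ * r, by positivity, ?_⟩
  have e : ((c a)⁻¹ * r) • D = a := by
    rw [mul_smul, ← hr, smul_smul, inv_mul_cancel₀ hca.ne', one_smul]
  rw [e]
  exact ha

/-- The boundary criterion. -/
theorem Data.hasRPFD_iff_extremal [Nontrivial V] (T : Data L N E Γ) (f : V →L[ℝ] ℝ)
    (hf : ∀ x ∈ N, x ≠ 0 → 0 < f x) (hfL : ∀ x ∈ L, ∃ n : ℤ, f x = n)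
    (hloc : ∀ D ∈ N, D ∈ interior (E : Set V) → IsLocRatPoly L N D)
    (hiff : HasRPFD L Γ (N ⊓ E) ↔ ((∀ D ∈ N, IsMinimal Γ f D → D ∈ latCone L N E) ∧
        ∀ J : Finset V, (∀ p ∈ J, p ∈ L ∧ p ∈ N ∧ p ∈ E) → ∑ p ∈ J, p ≠ 0 →
          RelCone L N E Γ J)) :
    HasRPFD L Γ (N ⊓ E) ↔
      (∀ D, IsExtremal {x : V | x ∈ N ∧ IsMinimal Γ f x} D → D ∉ interior (E : Set V) →
        ∃ c : ℝ, 0 < c ∧ c • D ∈ L ∧ c • D ∈ E) ∧
      ∀ J : Finset V, (∀ p ∈ J, p ∈ L ∧ p ∈ N ∧ p ∈ E) → ∑ p ∈ J, p ≠ 0 →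
        ∑ p ∈ J, p ∉ interior (E : Set V) → RelCone L N E Γ J := by
  classical
  constructor
  · intro h
    obtain ⟨⟨s, hsL, hs⟩, hle⟩ := T.isRatPoly_minCone f hf hfL h
    refine ⟨fun D hD _ => ?_, fun J hJ hJ0 _ => (hiff.1 h).2 J hJ hJ0⟩
    rw [← coe_minCone] at hD
    obtain ⟨c, hc, hcD⟩ := hD.rational hs (fun x hx => hf x hx.1)
    refine ⟨c, hc, hsL hcD, ?_⟩
    have h1 : c • D ∈ minCone N Γ f := by rw [hs]; exact Submodule.subset_span hcD
    exact (hle h1).2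
  · rintro ⟨hext, hrel⟩
    refine hiff.2 ⟨fun D hD hmin => ?_, fun J hJ hJ0 => ?_⟩
    · have h1 := mem_hull_extremal (K := minCone N Γ f) (f := f) (isClosed_minCone T.closed f)
        (fun x hx => hf x hx.1) (x := D) ⟨hD, hmin⟩
      refine (Submodule.span_le.2 ?_) h1
      intro y hy
      have hyN : y ∈ N := hy.1.1
      by_cases hyE : y ∈ interior (E : Set V)
      · obtain ⟨s, hs, hys, -⟩ := T.exists_local hyN hyE (hloc y hyN hyE)
        exact Submodule.span_mono (fun a ha => hs a ha) hys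
      · obtain ⟨c, hc, hcL, hcE⟩ := hext y hy hyE
        have h2 : c • y ∈ latCone L N E :=
          Submodule.subset_span ⟨hcL, PointedCone.smul_mem N hc.le hyN, hcE⟩
        have h3 := PointedCone.smul_mem _ (inv_nonneg.2 hc.le) h2
        rwa [smul_smul, inv_mul_cancel₀ hc.ne', one_smul] at h3
    · by_cases hJE : ∑ p ∈ J, p ∈ interior (E : Set V)
      · exact T.relCone_of_locRatPoly hJ hJE (hloc _ (N.sum_mem fun p hp => (hJ p hp).2.1) hJE)
      · exact hrel J hJ hJ0 hJE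

/-- If `N` meets all rational polyhedral cones inside `E` in rational polyhedral cones, then it is
locally rational polyhedral at the points of the interior of `E`. -/
theorem locRatPoly_of_inter
    (hSh : ∀ S : Finset V, (∀ p ∈ S, p ∈ L ∧ p ∈ E) →
      IsRatPoly L (N ⊓ PointedCone.hull ℝ (S : Set V))) {D : V}
    (hDE : D ∈ interior (E : Set V)) : IsLocRatPoly L N D := by
  classical
  obtain ⟨s, hs1, hs2, hs3⟩ := exists_ratPoly_nhds L isOpen_interior hDE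
  have hsE : ∀ p ∈ s, p ∈ L ∧ p ∈ E := by
    intro p hp
    obtain ⟨c, hc, hcv⟩ := hs2 p hp
    have := interior_smul' hcv (inv_pos.2 hc)
    rw [smul_smul, inv_mul_cancel₀ hc.ne', one_smul] at this
    exact ⟨hs1 hp, interior_subset this⟩
  refine ⟨_, hSh s hsE, interior (PointedCone.hull ℝ (s : Set V) : Set V),
    isOpen_interior.mem_nhds hs3, ?_⟩
  ext x
  constructor
  · rintro ⟨h1, h2⟩
    exact ⟨h1, h2, interior_subset h1⟩
  · rintro ⟨h1, h2⟩
    exact ⟨h1, h2.1⟩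

omit [FiniteDimensional ℝ V] [DiscreteTopology L] [IsZLattice ℝ L] in
/-- Under the same hypothesis `N ∩ E` is generated by its lattice points. -/
theorem Data.mem_latCone_of_inter (T : Data L N E Γ)
    (hSh : ∀ S : Finset V, (∀ p ∈ S, p ∈ L ∧ p ∈ E) →
      IsRatPoly L (N ⊓ PointedCone.hull ℝ (S : Set V))) {D : V} (hD : D ∈ N) (hDE : D ∈ E) :
    D ∈ latCone L N E := by
  classical
  obtain ⟨u, huL, huE, hDu⟩ := T.exists_finset hDE
  obtain ⟨t, htL, ht⟩ := hSh u fun p hp => ⟨huL hp, huE hp⟩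
  have h1 : D ∈ N ⊓ PointedCone.hull ℝ (u : Set V) := ⟨hD, hDu⟩
  rw [ht] at h1
  refine (Submodule.span_mono ?_) h1
  intro a ha
  have h2 : a ∈ N ⊓ PointedCone.hull ℝ (u : Set V) := by
    rw [ht]; exact Submodule.subset_span ha
  exact ⟨htL ha, h2.1, (Submodule.span_le.2 huE) h2.2⟩

omit [FiniteDimensional ℝ V] [DiscreteTopology L] [IsZLattice ℝ L] in
theorem latCone_le : latCone L N E ≤ E := Submodule.span_le.2 fun _ hp => hp.2.2

/-- The boundary criterion, non-vanishing form. -/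
theorem Data.hasRPFD_iff_nonvanishing [Nontrivial V] (T : Data L N E Γ) (f : V →L[ℝ] ℝ)
    (hf : ∀ x ∈ N, x ≠ 0 → 0 < f x)
    (hSh : ∀ S : Finset V, (∀ p ∈ S, p ∈ L ∧ p ∈ E) →
      IsRatPoly L (N ⊓ PointedCone.hull ℝ (S : Set V)))
    (hiff : HasRPFD L Γ (N ⊓ E) ↔ ((∀ D ∈ N, IsMinimal Γ f D → D ∈ latCone L N E) ∧
        ∀ J : Finset V, (∀ p ∈ J, p ∈ L ∧ p ∈ N ∧ p ∈ E) → ∑ p ∈ J, p ≠ 0 →
          RelCone L N E Γ J)) :
    HasRPFD L Γ (N ⊓ E) ↔
      (∀ D, IsExtremal {x : V | x ∈ N ∧ IsMinimal Γ f x} D → D ∉ interior (E : Set V) → D ∈ E) ∧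
      ∀ J : Finset V, (∀ p ∈ J, p ∈ L ∧ p ∈ N ∧ p ∈ E) → ∑ p ∈ J, p ≠ 0 →
        ∑ p ∈ J, p ∉ interior (E : Set V) → RelCone L N E Γ J := by
  classical
  constructor
  · intro h
    exact ⟨fun D hD _ => latCone_le ((hiff.1 h).1 D hD.1.1 hD.1.2),
      fun J hJ hJ0 _ => (hiff.1 h).2 J hJ hJ0⟩
  · rintro ⟨hext, hrel⟩
    refine hiff.2 ⟨fun D hD hmin => ?_, fun J hJ hJ0 => ?_⟩
    · have h1 := mem_hull_extremal (K := minCone N Γ f) (f := f) (isClosed_minCone T.closed f)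
        (fun x hx => hf x hx.1) (x := D) ⟨hD, hmin⟩
      refine (Submodule.span_le.2 ?_) h1
      intro y hy
      refine T.mem_latCone_of_inter hSh hy.1.1 ?_
      by_cases hyE : y ∈ interior (E : Set V)
      · exact interior_subset hyE
      · exact hext y hy hyE
    · by_cases hJE : ∑ p ∈ J, p ∈ interior (E : Set V)
      · exact T.relCone_of_locRatPoly hJ hJE (locRatPoly_of_inter hSh hJE)
      · exact hrel J hJ hJ0 hJE

end Pool.Agent.Lib.Pad47bbM
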