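import Pool.Agent.Lib.Pad47bbM.Cara
import Pool.Agent.Lib.Pad47bbM.Min
import Pool.Agent.Lib.Pad47bbC.Criterion

/-!
The relative cone statement at a point, and the criterion by minimal points.
-/

open Set Topology

namespace Pool.Agent.Lib.Pad47bbM

open Pool.Agent.Lib.Pad47bb Pool.Agent.Lib.Pad47bbQ Pool.Agent.Lib.Pad47bbC

variable {V : Type*} [NormedAddCommGroup V] [NormedSpace ℝ V]

/-- The relative cone statement at `D`: `D` is a positive combination of a finite set `J` of lattice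
points of `N ∩ E`, and the relative cone statement holds for `J`. -/
def RelPoly (L : Submodule ℤ V) (N E : PointedCone ℝ V) (Γ : Subgroup (V ≃ₗ[ℝ] V)) (D : V) :
    Prop :=
  ∃ J : Finset V, (∀ p ∈ J, p ∈ L ∧ p ∈ N ∧ p ∈ E) ∧
    (∃ c : V → ℝ, (∀ p ∈ J, 0 < c p) ∧ D = ∑ p ∈ J, c p • p) ∧ RelCone L N E Γ J

theorem RelPoly.mem {L : Submodule ℤ V} {N E : PointedCone ℝ V} {Γ : Subgroup (V ≃ₗ[ℝ] V)}
    {D : V} (h : RelPoly L N E Γ D) : D ∈ N ⊓ E := by
  obtain ⟨J, hJ, ⟨c, hc, rfl⟩, -⟩ := h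
  refine Submodule.sum_mem _ fun p hp => ?_
  exact PointedCone.smul_mem _ (hc p hp).le ⟨(hJ p hp).2.1, (hJ p hp).2.2⟩

/-- adding a large multiple of a positive combination -/
theorem exists_add_mem {J : Finset V} {c : V → ℝ} (hc : ∀ p ∈ J, 0 < c p) {v : V}
    (hv : v ∈ Submodule.span ℝ (J : Set V)) :
    ∃ t : ℝ, 0 ≤ t ∧ v + t • ∑ p ∈ J, c p • p ∈ PointedCone.hull ℝ (J : Set V) := by
  classical
  obtain ⟨d, -, rfl⟩ := Submodule.mem_span_finset.1 hv
  refine ⟨∑ p ∈ J, |d p| / c p, Finset.sum_nonneg fun p hp => by have := hc p hp; positivity, ?_⟩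
  rw [Finset.smul_sum, ← Finset.sum_add_distrib]
  refine Submodule.sum_mem _ fun p hp => ?_
  rw [smul_smul, ← add_smul]
  refine PointedCone.smul_mem _ ?_ (Submodule.subset_span hp)
  have h1 : |d p| / c p ≤ ∑ p ∈ J, |d p| / c p :=
    Finset.single_le_sum (f := fun p => |d p| / c p)
      (fun q hq => by have := hc q hq; positivity) hp
  have h2 := mul_le_mul_of_nonneg_right h1 (hc p hp).le
  rw [div_mul_cancel₀ _ (hc p hp).ne'] at h2
  have h3 := neg_abs_le (d p)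
  linarith

variable [FiniteDimensional ℝ V] {L : Submodule ℤ V} [DiscreteTopology L] [IsZLattice ℝ L]

/-- Near a point `D` satisfying the relative cone statement, the minimal interior points lie in a
rational polyhedral cone. -/
theorem RelPoly.exists_local {N E : PointedCone ℝ V} {Γ : Subgroup (V ≃ₗ[ℝ] V)}
    (S : Setting L N Γ) (hΓE : ∀ g ∈ Γ, ∀ x ∈ E, g x ∈ E) (f : V →L[ℝ] ℝ)
    (hf : ∀ x ∈ closure (N : Set V), x ≠ 0 → 0 < f x) {D : V} (hD : IsMinimal Γ f D)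
    (h : RelPoly L N E Γ D) :
    ∃ P : PointedCone ℝ V, IsRatPoly L P ∧ P ≤ N ⊓ E ∧ ∃ U ∈ 𝓝 D, ∀ r ∈ U,
      r ∈ interior (N : Set V) → IsMinimal Γ f r → r ∈ P := by
  classical
  have hDNE := h.mem
  obtain ⟨J, hJ, ⟨c, hc, hDc⟩, Y, hY, hrel⟩ := h
  set s : Finset V := J ∪ Y with hs
  have hsN : ∀ p ∈ s, p ∈ L ∧ p ∈ N ∧ p ∈ E := by
    intro p hp
    rcases Finset.mem_union.1 hp with h | h
    · exact hJ p h
    · exact hY p h
  have hfin := finite_minimizersR S s (fun p hp => (hsN p hp).1) (fun p hp => (hsN p hp).2.1) f hf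
  set Φ := hfin.toFinset with hΦ
  have hΦΓ : ∀ γ ∈ Φ, γ ∈ Γ := fun γ hγ => (hfin.mem_toFinset.1 hγ).1
  choose U hU hUmem using fun γ : V ≃ₗ[ℝ] V => local_cone (s.image γ) D
  refine ⟨⨆ γ ∈ Φ, imageCone γ (PointedCone.hull ℝ (s : Set V)), ?_, ?_, ⋂ γ ∈ Φ, U γ, ?_, ?_⟩
  · exact IsRatPoly.biSup Φ _ fun γ hγ => IsRatPoly.image ⟨s, fun p hp => (hsN p hp).1, rfl⟩ γ
      (S.map_lattice γ (hΦΓ γ hγ))
  · refine iSup₂_le fun γ hγ => imageCone_le ?_
    intro x hx
    have hx' : x ∈ N ⊓ E := by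
      have h1 : PointedCone.hull ℝ (s : Set V) ≤ N ⊓ E := by
        refine Submodule.span_le.2 fun p hp => ?_
        exact ⟨(hsN p hp).2.1, (hsN p hp).2.2⟩
      exact h1 hx
    exact ⟨S.map_cone γ (hΦΓ γ hγ) x hx'.1, hΓE γ (hΦΓ γ hγ) x hx'.2⟩
  · rw [Filter.biInter_finset_mem]
    exact fun γ _ => hU γ
  · intro r hr hrint hrmin
    obtain ⟨a, ⟨ha, haJ⟩, y, hy, hay⟩ := hrel r hrint
    obtain ⟨t, ht, htmem⟩ := exists_add_mem hc hay
    rw [← hDc] at htmem
    have haD : a D = D := by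
      rw [hDc, map_sum]
      refine Finset.sum_congr rfl fun p hp => ?_
      rw [map_smul, haJ p hp]
    have hz : a r + t • D ∈ PointedCone.hull ℝ (s : Set V) := by
      have h1 : a r + t • D = y + (a r - y + t • D) := by abel
      rw [h1]
      refine Submodule.add_mem _ ?_ ?_
      · exact (Submodule.span_mono (by rw [hs, Finset.coe_union]; exact subset_union_right)) hy
      · exact (Submodule.span_mono (by rw [hs, Finset.coe_union]; exact subset_union_left)) htmem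
    have haz : a r + t • D = a (r + t • D) := by
      rw [map_add, map_smul, haD]
    have hinv : a⁻¹ (a r + t • D) = r + t • D := by
      rw [haz]
      exact a.symm_apply_apply _
    have hγΦ : a⁻¹ ∈ Φ := by
      refine hfin.mem_toFinset.2 ⟨inv_mem ha, a r + t • D, hz, ?_, ?_⟩
      · refine interior_add_mem (interior_map_mem (S.map_cone a ha) hrint) ?_
        exact PointedCone.smul_mem _ ht hDNE.1
      · rw [hinv]
        exact hrmin.add (hD.smul ht)
    have hmem : r + t • D ∈ PointedCone.hull ℝ ((s.image (a⁻¹ : V ≃ₗ[ℝ] V) : Finset V) : Set V) := by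
      have h1 : imageCone (a⁻¹) (PointedCone.hull ℝ (s : Set V)) =
          PointedCone.hull ℝ ((s.image (a⁻¹ : V ≃ₗ[ℝ] V) : Finset V) : Set V) := by
        rw [Finset.coe_image]
        exact Submodule.map_span _ _
      rw [← h1]
      exact ⟨a r + t • D, hz, hinv⟩
    have hrU : r ∈ U (a⁻¹) := mem_iInter₂.1 hr _ hγΦ
    have hr2 := hUmem _ r hrU t ht hmem
    have h3 : imageCone (a⁻¹) (PointedCone.hull ℝ (s : Set V)) ≤
        ⨆ γ ∈ Φ, imageCone γ (PointedCone.hull ℝ (s : Set V)) :=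
      le_iSup₂ (f := fun γ (_ : γ ∈ Φ) => imageCone γ (PointedCone.hull ℝ (s : Set V))) _ hγΦ
    apply h3
    have h1 : imageCone (a⁻¹) (PointedCone.hull ℝ (s : Set V)) =
        PointedCone.hull ℝ ((s.image (a⁻¹ : V ≃ₗ[ℝ] V) : Finset V) : Set V) := by
      rw [Finset.coe_image]
      exact Submodule.map_span _ _
    rw [h1]
    exact hr2

/-- The minimal interior points lie in one rational polyhedral cone. -/
theorem exists_ratPoly_of_relPoly {N E : PointedCone ℝ V} {Γ : Subgroup (V ≃ₗ[ℝ] V)}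
    (S : Setting L N Γ) (hN : IsClosed (N : Set V)) (hΓE : ∀ g ∈ Γ, ∀ x ∈ E, g x ∈ E)
    (f : V →L[ℝ] ℝ) (hf : ∀ x ∈ closure (N : Set V), x ≠ 0 → 0 < f x)
    (h : ∀ D ∈ N, D ≠ 0 → IsMinimal Γ f D → RelPoly L N E Γ D) :
    ∃ P : PointedCone ℝ V, IsRatPoly L P ∧ P ≤ N ⊓ E ∧ ∀ r ∈ interior (N : Set V),
      IsMinimal Γ f r → r ∈ P := by
  classical
  set R : Set V := ((N : Set V) ∩ {x | IsMinimal Γ f x}) ∩ Metric.sphere 0 1 with hR
  have hRc : IsCompact R :=
    (isCompact_sphere 0 1).inter_left (hN.inter (isClosed_isMinimal Γ f))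
  have h1 : ∀ D ∈ R, ∃ P : PointedCone ℝ V, IsRatPoly L P ∧ P ≤ N ⊓ E ∧ ∃ U ∈ 𝓝 D, ∀ r ∈ U,
      r ∈ interior (N : Set V) → IsMinimal Γ f r → r ∈ P := by
    rintro D ⟨⟨hD1, hD2⟩, hD3⟩
    have hD0 : D ≠ 0 := by
      rintro rfl
      simp at hD3
    exact (h D hD1 hD0 hD2).exists_local S hΓE f hf hD2
  choose! P hP hPN U hU hUmem using h1
  obtain ⟨t, htR, hcov⟩ := hRc.elim_nhds_subcover U hU
  refine ⟨⨆ q ∈ t, P q, IsRatPoly.biSup t P fun q hq => hP q (htR q hq),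
    iSup₂_le fun q hq => hPN q (htR q hq), ?_⟩
  intro r hr hrmin
  by_cases hr0 : r = 0
  · rw [hr0]; exact zero_mem _
  have hrn : 0 < ‖r‖ := norm_pos_iff.2 hr0
  have hr1 : ‖r‖⁻¹ • r ∈ R := by
    refine ⟨⟨PointedCone.smul_mem _ (by positivity) (interior_subset hr),
      hrmin.smul (by positivity)⟩, ?_⟩
    simp [norm_smul, hrn.ne']
  have h2 := hcov hr1
  simp only [mem_iUnion] at h2
  obtain ⟨q, hq, hrq⟩ := h2
  have h3 := hUmem q (htR q hq) _ hrq (interior_smul_mem hr (by positivity))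
    (hrmin.smul (by positivity))
  have h4 : P q ≤ ⨆ q ∈ t, P q := le_iSup₂ (f := fun q (_ : q ∈ t) => P q) q hq
  have h5 := PointedCone.smul_mem (⨆ q ∈ t, P q) hrn.le (h4 h3)
  rwa [smul_smul, mul_inv_cancel₀ hrn.ne', one_smul] at h5

end Pool.Agent.Lib.Pad47bbM
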