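import Pool.Agent.Lib.Pad47bbM.Cover

/-!
The relative non-vanishing statements, and the criterion.
-/

open Set Topology

namespace Pool.Agent.Lib.Pad47bbM

open Pool.Agent.Lib.Pad47bb Pool.Agent.Lib.Pad47bbQ Pool.Agent.Lib.Pad47bbC

variable {V : Type*} [NormedAddCommGroup V] [NormedSpace ℝ V]

theorem fixer_le (Γ : Subgroup (V ≃ₗ[ℝ] V)) (J : Finset V) : fixer Γ J ≤ Γ := fun _ h => h.1

theorem fixer_anti (Γ : Subgroup (V ≃ₗ[ℝ] V)) {J J' : Finset V} (h : J ⊆ J') :
    fixer Γ J' ≤ fixer Γ J := fun _ hg => ⟨hg.1, fun p hp => hg.2 p (h hp)⟩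

theorem fixer_empty (Γ : Subgroup (V ≃ₗ[ℝ] V)) : fixer Γ ∅ = Γ :=
  le_antisymm (fixer_le Γ ∅) fun _ hg => ⟨hg, fun p hp => absurd hp (Finset.notMem_empty p)⟩

theorem IsMinimal.mono {Γ Γ' : Subgroup (V ≃ₗ[ℝ] V)} (h : Γ' ≤ Γ) {f : V →L[ℝ] ℝ} {x : V}
    (hx : IsMinimal Γ f x) : IsMinimal Γ' f x := fun g hg => hx g (h hg)

theorem fixer_span {Γ : Subgroup (V ≃ₗ[ℝ] V)} {J : Finset V} {g : V ≃ₗ[ℝ] V}
    (hg : g ∈ fixer Γ J) {x : V} (hx : x ∈ Submodule.span ℝ (J : Set V)) : g x = x := by
  have h1 : Submodule.span ℝ (J : Set V) ≤ LinearMap.eqLocus (g : V →ₗ[ℝ] V) LinearMap.id :=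
    Submodule.span_le.2 fun p hp => hg.2 p hp
  exact h1 hx

/-- The minimal interior points for `H` lie in `cone Y + span J`, `Y` finite. -/
def RelCov (L : Submodule ℤ V) (N E : PointedCone ℝ V) (H : Subgroup (V ≃ₗ[ℝ] V))
    (f : V →L[ℝ] ℝ) (J : Finset V) : Prop :=
  ∃ Y : Finset V, (∀ p ∈ Y, p ∈ L ∧ p ∈ N ∧ p ∈ E) ∧
    ∀ r ∈ interior (N : Set V), IsMinimal H f r →
      ∃ y ∈ PointedCone.hull ℝ (Y : Set V), r - y ∈ Submodule.span ℝ (J : Set V)

theorem RelCov.mono {L : Submodule ℤ V} {N E : PointedCone ℝ V} {H H' : Subgroup (V ≃ₗ[ℝ] V)}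
    {f : V →L[ℝ] ℝ} {J : Finset V} (hH : H' ≤ H) (h : RelCov L N E H' f J) :
    RelCov L N E H f J := by
  obtain ⟨Y, hY, hcov⟩ := h
  exact ⟨Y, hY, fun r hr hmin => hcov r hr (hmin.mono hH)⟩

theorem NonVan.mono {L : Submodule ℤ V} {N E : PointedCone ℝ V} {H H' : Subgroup (V ≃ₗ[ℝ] V)}
    {f : V →L[ℝ] ℝ} {J : Finset V} (hH : H' ≤ H) (h : NonVan L N E H' f J) :
    NonVan L N E H f J := by
  refine Subset.trans (closure_mono ?_) h
  rintro x ⟨r, hr, hmin, hxr⟩
  exact ⟨r, hr, hmin.mono hH, hxr⟩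

variable [FiniteDimensional ℝ V]

/-- finitely generated cones are closed -/
theorem isClosed_hull_finset (s : Finset V) :
    IsClosed (PointedCone.hull ℝ (s : Set V) : Set V) := by
  classical
  let T : Finset (Finset V) := s.powerset.filter
    fun t => LinearIndependent ℝ (fun a : t => (a : V))
  have h1 : (PointedCone.hull ℝ (s : Set V) : Set V) =
      ⋃ t ∈ (T : Set (Finset V)), (PointedCone.hull ℝ (t : Set V) : Set V) := by
    apply Subset.antisymm
    · intro x hx
      obtain ⟨t, hts, hli, d, hd, rfl⟩ := caratheodory hx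
      refine mem_biUnion (x := t) (Finset.mem_coe.2 (Finset.mem_filter.2
        ⟨Finset.mem_powerset.2 hts, hli⟩)) ?_
      exact Submodule.sum_mem _ fun a ha =>
        PointedCone.smul_mem _ (hd a ha).le (Submodule.subset_span ha)
    · refine iUnion₂_subset fun t ht => ?_
      have h2 := (Finset.mem_filter.1 (Finset.mem_coe.1 ht)).1
      exact hull_mono_finset (Finset.mem_powerset.1 h2)
  rw [h1]
  refine T.finite_toSet.isClosed_biUnion fun t ht => ?_
  have hli := (Finset.mem_filter.1 (Finset.mem_coe.1 ht)).2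
  let Ψ : (t → ℝ) →ₗ[ℝ] V := Fintype.linearCombination ℝ (fun a : t => (a : V))
  have hΨ : Function.Injective Ψ := by
    rw [injective_iff_map_eq_zero]
    intro c hc
    rw [Fintype.linearCombination_apply] at hc
    funext a
    exact Fintype.linearIndependent_iff.1 hli c hc a
  have h3 : (PointedCone.hull ℝ (t : Set V) : Set V) = Ψ '' {c | ∀ a, 0 ≤ c a} := by
    ext x
    constructor
    · intro hx
      obtain ⟨c, hc, rfl⟩ := mem_hull_finset.1 hx
      refine ⟨fun a => c a, fun a => hc a a.2, ?_⟩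
      rw [Fintype.linearCombination_apply]
      exact Finset.sum_coe_sort t (fun a => c a • a)
    · rintro ⟨c, hc, rfl⟩
      rw [Fintype.linearCombination_apply]
      refine Submodule.sum_mem _ fun a _ => ?_
      exact PointedCone.smul_mem _ (hc a) (Submodule.subset_span a.2)
  rw [h3]
  refine (LinearMap.isClosedEmbedding_of_injective (LinearMap.ker_eq_bot.2 hΨ)).isClosedMap _ ?_
  have h4 : {c : t → ℝ | ∀ a, 0 ≤ c a} = ⋂ a, {c | 0 ≤ c a} := by
    ext c
    simp
  rw [h4]
  exact isClosed_iInter fun a => isClosed_le continuous_const (continuous_apply a)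

/-- a linear map with kernel `W` -/
theorem exists_proj (W : Submodule ℝ V) :
    ∃ π : V →L[ℝ] V, (∀ x, x - π x ∈ W) ∧ ∀ x ∈ W, π x = 0 := by
  obtain ⟨W', hW'⟩ := Submodule.exists_isCompl W
  refine ⟨LinearMap.toContinuousLinearMap (W'.projection W hW'.symm), ?_, ?_⟩
  · intro x
    show x - W'.projection W hW'.symm x ∈ W
    rw [← Submodule.projection_apply_eq_zero_iff hW'.symm, map_sub, sub_eq_zero]
    exact (Submodule.projection_apply_of_mem_left hW'.symm
      (Submodule.projection_apply_mem hW'.symm x)).symm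
  · intro x hx
    exact Submodule.projection_apply_of_mem_right hW'.symm hx

variable {L : Submodule ℤ V} {N E : PointedCone ℝ V} {Γ : Subgroup (V ≃ₗ[ℝ] V)}

/-- Non-vanishing for all `J` gives a finitely generated cover of the minimal points. -/
theorem cover_of_nonVan (f : V →L[ℝ] ℝ)
    (h : ∀ J : Finset V, (∀ p ∈ J, p ∈ L ∧ p ∈ N ∧ p ∈ E) →
      NonVan L N E Γ f J ∨ RelCov L N E Γ f J) (n : ℕ) :
    ∀ J : Finset V, (∀ p ∈ J, p ∈ L ∧ p ∈ N ∧ p ∈ E) →
      Module.finrank ℝ V - Module.finrank ℝ (Submodule.span ℝ (J : Set V)) = n →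
      RelCov L N E Γ f J := by
  classical
  induction n using Nat.strong_induction_on with
  | _ n ih =>
    intro J hJ hn
    rcases h J hJ with hNV | hcov
    swap
    · exact hcov
    obtain ⟨π, hπ1, hπ2⟩ := exists_proj (Submodule.span ℝ (J : Set V))
    have hππ : ∀ x, π (π x) = π x := by
      intro x
      have h1 := hπ2 _ (hπ1 x)
      rw [map_sub, sub_eq_zero] at h1
      exact h1.symm
    set R : Set V := {r | r ∈ N ∧ IsMinimal Γ f r} with hR
    set S : Set V := closure (π '' R) ∩ Metric.sphere 0 1 with hS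
    have hSc : IsCompact S := (isCompact_sphere 0 1).inter_left isClosed_closure
    have key : ∀ z ∈ S, ∃ T : Finset V, (∀ p ∈ T, p ∈ L ∧ p ∈ N ∧ p ∈ E) ∧ ∃ U ∈ 𝓝 z,
        ∀ r ∈ interior (N : Set V), IsMinimal Γ f r → π r ∈ U →
          ∃ y ∈ PointedCone.hull ℝ (T : Set V), r - y ∈ Submodule.span ℝ (J : Set V) := by
      rintro z ⟨hz, hz1⟩
      have hzz : π z = z := by
        have hcl : IsClosed {x : V | π x = x} := isClosed_eq π.continuous continuous_id
        have hsub : π '' R ⊆ {x : V | π x = x} := by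
          rintro _ ⟨x, _, rfl⟩
          exact hππ x
        exact closure_minimal hsub hcl hz
      have hz2 : z ∈ closure {x : V | ∃ r ∈ N, IsMinimal Γ f r ∧
          x - r ∈ Submodule.span ℝ (J : Set V)} := by
        refine closure_mono ?_ hz
        rintro _ ⟨r, ⟨hr1, hr2⟩, rfl⟩
        refine ⟨r, hr1, hr2, ?_⟩
        rw [← neg_sub]
        exact Submodule.neg_mem _ (hπ1 r)
      obtain ⟨c, hc, hzc⟩ := hNV hz2
      have hπc : π c = z := by
        have h1 := hπ2 _ hzc
        rw [map_sub, sub_eq_zero, hzz] at h1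
        exact h1.symm
      obtain ⟨T₀, hT₀, hcT₀⟩ := Submodule.mem_span_finite_of_mem_span hc
      obtain ⟨d₀, hd₀, hcd₀⟩ := mem_hull_finset.1 hcT₀
      set T := T₀.filter fun a => 0 < d₀ a with hT
      have hTN : ∀ p ∈ T, p ∈ L ∧ p ∈ N ∧ p ∈ E := fun p hp => hT₀ (Finset.mem_filter.1 hp).1
      have hcT : c = ∑ a ∈ T, d₀ a • a := by
        rw [hcd₀, hT, Finset.sum_filter]
        refine Finset.sum_congr rfl fun a ha => ?_
        by_cases h : 0 < d₀ a
        · rw [if_pos h]
        · rw [if_neg h, le_antisymm (not_lt.1 h) (hd₀ a ha), zero_smul]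
      have hdpos : ∀ a ∈ T, 0 < d₀ a := fun a ha => (Finset.mem_filter.1 ha).2
      have hJT : ∀ p ∈ J ∪ T, p ∈ L ∧ p ∈ N ∧ p ∈ E := by
        intro p hp
        rcases Finset.mem_union.1 hp with h | h
        · exact hJ p h
        · exact hTN p h
      have hlt : Submodule.span ℝ (J : Set V) < Submodule.span ℝ ((J ∪ T : Finset V) : Set V) := by
        refine lt_of_le_of_ne (Submodule.span_mono (by
          rw [Finset.coe_union]; exact subset_union_left)) ?_
        intro heq
        have h1 : c ∈ Submodule.span ℝ ((J ∪ T : Finset V) : Set V) := by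
          rw [hcT]
          exact Submodule.sum_mem _ fun a ha => Submodule.smul_mem _ _
            (Submodule.subset_span (Finset.mem_coe.2 (Finset.mem_union_right _ ha)))
        rw [← heq] at h1
        have h2 := hπ2 _ h1
        rw [hπc] at h2
        rw [h2] at hz1
        simp at hz1
      have hfr := Submodule.finrank_lt_finrank_of_lt hlt
      have hle := Submodule.finrank_le (Submodule.span ℝ ((J ∪ T : Finset V) : Set V))
      obtain ⟨Y, hY, hYcov⟩ := ih _ (by omega) (J ∪ T) hJT rfl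
      have hYT : ∀ p ∈ Y ∪ T, p ∈ L ∧ p ∈ N ∧ p ∈ E := by
        intro p hp
        rcases Finset.mem_union.1 hp with h | h
        · exact hY p h
        · exact hTN p h
      obtain ⟨U, hU, hUmem⟩ := local_cone ((Y ∪ T).image π) z
      refine ⟨Y ∪ T, hYT, U, hU, ?_⟩
      intro r hr hrmin hrU
      obtain ⟨y, hy, hry⟩ := hYcov r hr hrmin
      rw [Finset.coe_union, Submodule.span_union] at hry
      obtain ⟨w, hw, t, ht, hwt⟩ := Submodule.mem_sup.1 hry
      obtain ⟨τ, hτ, hτmem⟩ := exists_add_mem hdpos ht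
      rw [← hcT] at hτmem
      have himg : ∀ v ∈ PointedCone.hull ℝ ((Y ∪ T : Finset V) : Set V),
          π v ∈ PointedCone.hull ℝ (((Y ∪ T).image π : Finset V) : Set V) := by
        intro v hv
        obtain ⟨e, he, rfl⟩ := mem_hull_finset.1 hv
        rw [map_sum]
        refine Submodule.sum_mem _ fun a ha => ?_
        rw [map_smul]
        exact PointedCone.smul_mem _ (he a ha)
          (Submodule.subset_span (Finset.mem_coe.2 (Finset.mem_image_of_mem _ ha)))
      have hmem : π r + τ • z ∈ PointedCone.hull ℝ (((Y ∪ T).image π : Finset V) : Set V) := by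
        have h1 : π r + τ • z = π (y + (t + τ • c)) := by
          have h2 : r = y + (w + t) := by rw [hwt]; abel
          rw [map_add, map_add, map_smul, hπc]
          conv_lhs => rw [h2, map_add, map_add, hπ2 w hw, zero_add]
          abel
        rw [h1]
        apply himg
        exact Submodule.add_mem _ (hull_mono_finset Finset.subset_union_left hy)
          (hull_mono_finset Finset.subset_union_right hτmem)
      have hr2 := hUmem _ hrU τ hτ hmem
      obtain ⟨e, he, hre⟩ := mem_hull_finset.1 hr2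
      -- lift
      have hlift : ∃ v ∈ PointedCone.hull ℝ ((Y ∪ T : Finset V) : Set V), π v = π r := by
        have h3 : ∀ b ∈ (Y ∪ T).image π, ∃ a ∈ Y ∪ T, π a = b := fun b hb =>
          Finset.mem_image.1 hb
        choose! l hl1 hl2 using h3
        refine ⟨∑ b ∈ (Y ∪ T).image π, e b • l b, ?_, ?_⟩
        · refine Submodule.sum_mem _ fun b hb => ?_
          exact PointedCone.smul_mem _ (he b hb) (Submodule.subset_span (Finset.mem_coe.2 (hl1 b hb)))
        · rw [map_sum, hre]
          refine Finset.sum_congr rfl fun b hb => ?_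
          rw [map_smul, hl2 b hb]
      obtain ⟨v, hv, hvr⟩ := hlift
      refine ⟨v, hv, ?_⟩
      have h4 := hπ1 (r - v)
      rwa [map_sub, hvr, sub_self, sub_zero] at h4
    choose! T hT U hU hUmem using key
    obtain ⟨t, htS, hcov⟩ := hSc.elim_nhds_subcover U hU
    refine ⟨t.biUnion T, ?_, ?_⟩
    · intro p hp
      obtain ⟨z, hz, hp⟩ := Finset.mem_biUnion.1 hp
      exact hT z (htS z hz) p hp
    · intro r hr hrmin
      by_cases hπr : π r = 0
      · refine ⟨0, zero_mem _, ?_⟩
        have h1 := hπ1 r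
        rwa [hπr] at h1
      have hn0 : 0 < ‖π r‖ := norm_pos_iff.2 hπr
      have hmemS : π (‖π r‖⁻¹ • r) ∈ S := by
        refine ⟨subset_closure ⟨‖π r‖⁻¹ • r, ⟨PointedCone.smul_mem _ (by positivity)
          (interior_subset hr), hrmin.smul (by positivity)⟩, rfl⟩, ?_⟩
        rw [map_smul]
        simp [norm_smul, hn0.ne']
      have h2 := hcov hmemS
      simp only [mem_iUnion] at h2
      obtain ⟨z, hz, hzU⟩ := h2
      obtain ⟨y, hy, hry⟩ := hUmem z (htS z hz) _ (interior_smul_mem hr (by positivity))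
        (hrmin.smul (by positivity)) hzU
      refine ⟨‖π r‖ • y, PointedCone.smul_mem _ hn0.le
        (hull_mono_finset (Finset.subset_biUnion_of_mem T hz) hy), ?_⟩
      have h3 := Submodule.smul_mem _ ‖π r‖ hry
      rwa [smul_sub, smul_smul, mul_inv_cancel₀ hn0.ne', one_smul] at h3

variable [DiscreteTopology L] [IsZLattice ℝ L]

/-- The relative cone statement for `J` gives a finitely generated cover of the points minimal for
the stabilizer of `J`. -/
theorem relCov_of_relCone (S : Setting L N Γ) (hΓE : ∀ g ∈ Γ, ∀ x ∈ E, g x ∈ E)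
    (f : V →L[ℝ] ℝ) (hf : ∀ x ∈ closure (N : Set V), x ≠ 0 → 0 < f x) {J : Finset V}
    (hJ : ∀ p ∈ J, p ∈ L ∧ p ∈ N ∧ p ∈ E) (h : RelCone L N E Γ J) :
    RelCov L N E (fixer Γ J) f J := by
  classical
  obtain ⟨Y, hY, hrel⟩ := h
  have SJ : Setting L N (fixer Γ J) := ⟨S.salient, S.interior_nonempty,
    fun g hg => S.map_lattice g hg.1, fun g hg => S.map_cone g hg.1⟩
  set s : Finset V := J ∪ Y with hs
  have hsN : ∀ p ∈ s, p ∈ L ∧ p ∈ N ∧ p ∈ E := by
    intro p hp
    rcases Finset.mem_union.1 hp with h | h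
    · exact hJ p h
    · exact hY p h
  have hfin := finite_minimizersR SJ s (fun p hp => (hsN p hp).1) (fun p hp => (hsN p hp).2.1) f hf
  refine ⟨hfin.toFinset.biUnion fun γ => Y.image γ, ?_, ?_⟩
  · intro p hp
    obtain ⟨γ, hγ, hp⟩ := Finset.mem_biUnion.1 hp
    obtain ⟨q, hq, rfl⟩ := Finset.mem_image.1 hp
    have hγ' : γ ∈ Γ := (hfin.mem_toFinset.1 hγ).1.1
    obtain ⟨h1, h2, h3⟩ := hY q hq
    exact ⟨S.map_lattice _ hγ' q h1, S.map_cone _ hγ' q h2, hΓE _ hγ' q h3⟩
  · intro r hr hrmin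
    obtain ⟨a, ha, y, hy, hay⟩ := hrel r hr
    obtain ⟨t, ht, htmem⟩ := exists_add_mem (c := fun _ => (1 : ℝ)) (fun _ _ => one_pos) hay
    simp only [one_smul] at htmem
    set σ : V := ∑ p ∈ J, p with hσ
    have hσspan : σ ∈ Submodule.span ℝ (J : Set V) :=
      Submodule.sum_mem _ fun p hp => Submodule.subset_span hp
    have hσN : σ ∈ N := N.sum_mem fun p hp => (hJ p hp).2.1
    have hz : a r + t • σ ∈ PointedCone.hull ℝ (s : Set V) := by
      have h1 : a r + t • σ = y + (a r - y + t • σ) := by abel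
      rw [h1]
      exact Submodule.add_mem _ (hull_mono_finset Finset.subset_union_right hy)
        (hull_mono_finset Finset.subset_union_left htmem)
    have ha' : a⁻¹ ∈ fixer Γ J := inv_mem ha
    have hinv : a⁻¹ (a r) = r := a.symm_apply_apply r
    have hinvz : a⁻¹ (a r + t • σ) = r + t • σ := by
      rw [map_add, map_smul, hinv, fixer_span ha' hσspan]
    have hσmin : IsMinimal (fixer Γ J) f σ := fun g hg => by rw [fixer_span hg hσspan]
    have hγΦ : a⁻¹ ∈ hfin.toFinset := by
      refine hfin.mem_toFinset.2 ⟨ha', a r + t • σ, hz, ?_, ?_⟩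
      · refine interior_add_mem (interior_map_mem (S.map_cone a ha.1) hr) ?_
        exact PointedCone.smul_mem _ ht hσN
      · rw [hinvz]
        exact hrmin.add (hσmin.smul ht)
    refine ⟨a⁻¹ y, ?_, ?_⟩
    · have h1 : a⁻¹ y ∈ imageCone (a⁻¹) (PointedCone.hull ℝ (Y : Set V)) := ⟨y, hy, rfl⟩
      have h2 : imageCone (a⁻¹) (PointedCone.hull ℝ (Y : Set V)) =
          PointedCone.hull ℝ ((Y.image (a⁻¹ : V ≃ₗ[ℝ] V) : Finset V) : Set V) := by
        rw [Finset.coe_image]
        exact Submodule.map_span _ _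
      rw [h2] at h1
      exact hull_mono_finset (Finset.subset_biUnion_of_mem
        (fun γ : V ≃ₗ[ℝ] V => Y.image γ) hγΦ) h1
    · have h1 : r - a⁻¹ y = a⁻¹ (a r - y) := by rw [map_sub, hinv]
      rw [h1, fixer_span ha' hay]
      exact hay

/-- A finitely generated cover gives non-vanishing. -/
theorem nonVan_of_relCov {H : Subgroup (V ≃ₗ[ℝ] V)} (S : Setting L N H)
    (f : V →L[ℝ] ℝ) (hf : ∀ x ∈ closure (N : Set V), x ≠ 0 → 0 < f x) {J : Finset V}
    (h : RelCov L N E H f J) : NonVan L N E H f J := by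
  classical
  obtain ⟨Y, hY, hcov⟩ := h
  obtain ⟨π, hπ1, hπ2⟩ := exists_proj (Submodule.span ℝ (J : Set V))
  set s := Y.image π with hs
  have himg : ∀ v ∈ PointedCone.hull ℝ (Y : Set V), π v ∈ PointedCone.hull ℝ (s : Set V) := by
    intro v hv
    obtain ⟨e, he, rfl⟩ := mem_hull_finset.1 hv
    rw [map_sum]
    refine Submodule.sum_mem _ fun a ha => ?_
    rw [map_smul]
    exact PointedCone.smul_mem _ (he a ha)
      (Submodule.subset_span (Finset.mem_coe.2 (Finset.mem_image_of_mem _ ha)))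
  have hlift : ∀ x, π x ∈ PointedCone.hull ℝ (s : Set V) →
      ∃ c ∈ latCone L N E, x - c ∈ Submodule.span ℝ (J : Set V) := by
    intro x hx
    obtain ⟨e, he, hxe⟩ := mem_hull_finset.1 hx
    have h3 : ∀ b ∈ s, ∃ a ∈ Y, π a = b := fun b hb => Finset.mem_image.1 hb
    choose! l hl1 hl2 using h3
    refine ⟨∑ b ∈ s, e b • l b, ?_, ?_⟩
    · refine Submodule.sum_mem _ fun b hb => ?_
      exact PointedCone.smul_mem _ (he b hb) (Submodule.subset_span (hY _ (hl1 b hb)))
    · have h4 : π (∑ b ∈ s, e b • l b) = π x := by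
        rw [map_sum, hxe]
        refine Finset.sum_congr rfl fun b hb => ?_
        rw [map_smul, hl2 b hb]
      have h5 := hπ1 (x - ∑ b ∈ s, e b • l b)
      rwa [map_sub, h4, sub_self, sub_zero] at h5
  have hcl : IsClosed {x : V | π x ∈ PointedCone.hull ℝ (s : Set V)} :=
    (isClosed_hull_finset s).preimage π.continuous
  have hsub : {x : V | ∃ r ∈ N, IsMinimal H f r ∧ x - r ∈ Submodule.span ℝ (J : Set V)} ⊆
      {x : V | π x ∈ PointedCone.hull ℝ (s : Set V)} := by
    rintro x ⟨r, hr, hmin, hxr⟩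
    have h1 := hπ2 _ hxr
    rw [map_sub, sub_eq_zero] at h1
    show π x ∈ PointedCone.hull ℝ (s : Set V)
    rw [h1]
    obtain ⟨e₀, he₀⟩ := S.interior_nonempty
    obtain ⟨g₀, hg₀, hemin⟩ := exists_isMinimal S f hf he₀
    have he : g₀ e₀ ∈ interior (N : Set V) := interior_map_mem (S.map_cone g₀ hg₀) he₀
    set e := g₀ e₀
    have hmem : r ∈ {x : V | π x ∈ PointedCone.hull ℝ (s : Set V)} := by
      rw [← hcl.closure_eq, mem_closure_iff_frequently]
      refine (tendsto_add_smul r e).frequently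
        (p := fun y => y ∈ {x : V | π x ∈ PointedCone.hull ℝ (s : Set V)}) ?_
      refine Filter.Frequently.of_forall fun n => ?_
      have hint : r + (1 / ((n : ℝ) + 1)) • e ∈ interior (N : Set V) := by
        rw [add_comm]
        exact interior_add_mem (interior_smul_mem he (by positivity)) hr
      obtain ⟨y, hy, hry⟩ := hcov _ hint (hmin.add (hemin.smul (by positivity)))
      have h2 := hπ2 _ hry
      rw [map_sub, sub_eq_zero] at h2
      show π _ ∈ PointedCone.hull ℝ (s : Set V)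
      rw [h2]
      exact himg y hy
    exact hmem
  intro x hx
  exact hlift x (closure_minimal hsub hcl hx)

/-- Non-vanishing for all `J` gives a rational polyhedral fundamental domain. -/
theorem Data.hasRPFD_of_nonVan (T : Data L N E Γ) (f : V →L[ℝ] ℝ)
    (hf : ∀ x ∈ N, x ≠ 0 → 0 < f x)
    (h : ∀ J : Finset V, (∀ p ∈ J, p ∈ L ∧ p ∈ N ∧ p ∈ E) →
      NonVan L N E Γ f J ∨ RelCov L N E Γ f J) : HasRPFD L Γ (N ⊓ E) := by
  have hf' : ∀ x ∈ closure (N : Set V), x ≠ 0 → 0 < f x := by
    rw [T.closed.closure_eq]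
    exact hf
  obtain ⟨Y, hY, hcov⟩ := cover_of_nonVan f h _ ∅ (by simp) rfl
  refine T.hasRPFD_of_cover (P := PointedCone.hull ℝ (Y : Set V))
    ⟨Y, fun p hp => (hY p hp).1, rfl⟩ ?_ ?_
  · refine Submodule.span_le.2 fun p hp => ?_
    exact ⟨(hY p hp).2.1, (hY p hp).2.2⟩
  · intro x hx
    obtain ⟨g, hg, hmin⟩ := exists_isMinimal T.settingN f hf' hx
    refine ⟨g, hg, ?_⟩
    obtain ⟨y, hy, hgy⟩ := hcov _ (interior_map_mem (T.map_N g hg) hx) hmin
    rw [Finset.coe_empty, Submodule.span_empty, Submodule.mem_bot, sub_eq_zero] at hgy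
    rw [hgy]
    exact hy

end Pool.Agent.Lib.Pad47bbM
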